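import Pool.Agent.N982.MC.Fol
import Pool.Agent.N982.MC.Tu

/-!
Closed surfaces which may move: the level sets of `ψ t`, with `|∇ψ|² ≤ 4 ψ` and
`Δψ ≥ 2 (1 + κ)`.
-/

set_option autoImplicit false

open MeasureTheory Set Metric Filter Topology
open scoped ContDiff

namespace Pool.Agent.N982.EM

open H459R3.NS W221.NS Pool.Agent.Y8 Pool.Agent.N982.MC

/-- The level sets of `ψ t` are surfaces around `x₀` at the scale `r`. -/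
structure Fo (κ μ c r t₀ : ℝ) (x₀ : V) (ψ : ℝ → V → ℝ) : Prop where
  smooth : ContDiff ℝ ∞ (fun z : ℝ × V => ψ z.1 z.2)
  center : ∀ t, t ∈ Ioo (t₀ - r ^ 2) t₀ → ψ t x₀ ≤ (c * r) ^ 2
  low : ∀ t, t ∈ Ioo (t₀ - r ^ 2) t₀ → ∀ x, μ * ∑ i, (x i - x₀ i) ^ 2 ≤ ψ t x + (c * r) ^ 2
  grad : ∀ t, t ∈ Ioo (t₀ - r ^ 2) t₀ → ∀ x ∈ ball x₀ r, ∑ i, pd i (ψ t) x ^ 2 ≤ 4 * ψ t x
  conv : ∀ t, t ∈ Ioo (t₀ - r ^ 2) t₀ → ∀ x ∈ ball x₀ r, 2 * (1 + κ) ≤ lap (ψ t) x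

section

variable {κ μ c r t₀ : ℝ} {x₀ : V} {ψ : ℝ → V → ℝ}

lemma dt_ct (h : ContDiff ℝ ∞ (fun z : ℝ × V => ψ z.1 z.2)) :
    Continuous (fun z : ℝ × V => deriv (fun s => ψ s z.2) z.1) := by
  have h1 := (dt_joint (H := univ) isOpen_univ h.contDiffOn).continuousOn
  rwa [univ_prod_univ, continuousOn_univ] at h1

lemma lap_ct (h : ContDiff ℝ ∞ (fun z : ℝ × V => ψ z.1 z.2)) :
    Continuous (fun z : ℝ × V => lap (ψ z.1) z.2) := by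
  have h1 := (lap_joint (H := univ) isOpen_univ h.contDiffOn).continuousOn
  rwa [univ_prod_univ, continuousOn_univ] at h1

lemma Fo.toFol (h : Fo κ μ c r t₀ x₀ ψ) : ∃ κ', Fol κ' μ c r t₀ x₀ ψ := by
  have hc : Continuous (fun z : ℝ × V => deriv (fun s => ψ s z.2) z.1 + lap (ψ z.1) z.2) :=
    (dt_ct h.smooth).add (lap_ct h.smooth)
  obtain ⟨C, hC⟩ := ((isCompact_Icc (a := t₀ - r ^ 2) (b := t₀)).prod
    (isCompact_closedBall x₀ r)).exists_bound_of_continuousOn hc.continuousOn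
  refine ⟨-C / 2 - 1, h.smooth, h.center, h.low, h.grad, fun t ht x hx => ?_⟩
  have h1 := hC (t, x) ⟨⟨ht.1.le, ht.2.le⟩, ball_subset_closedBall hx⟩
  rw [Real.norm_eq_abs, abs_le] at h1
  have h2 : -C ≤ deriv (fun s => ψ s x) t + lap (ψ t) x := h1.1
  linarith

lemma Fo.sm (h : Fo κ μ c r t₀ x₀ ψ) (t : ℝ) : ContDiff ℝ ∞ (ψ t) :=
  h.smooth.comp (contDiff_const.prodMk contDiff_id)

lemma Fo.nn (h : Fo κ μ c r t₀ x₀ ψ) {t : ℝ} (ht : t ∈ Ioo (t₀ - r ^ 2) t₀) {x : V}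
    (hx : x ∈ ball x₀ r) : 0 ≤ ψ t x := by
  obtain ⟨κ', h'⟩ := h.toFol
  exact h'.nn ht hx

lemma Fo.up (h : Fo κ μ c r t₀ x₀ ψ) {t : ℝ} (ht : t ∈ Ioo (t₀ - r ^ 2) t₀) {x : V} {s : ℝ}
    (hs : 0 < s) (hsr : s ≤ r) (hc : c ^ 2 * r ^ 2 ≤ s ^ 2) (hx : x ∈ ball x₀ s) :
    ψ t x ≤ 10 * s ^ 2 := by
  obtain ⟨κ', h'⟩ := h.toFol
  exact h'.up ht hs hsr hc hx

lemma Fo.out (h : Fo κ μ c r t₀ x₀ ψ) (hμ : 0 < μ) (hr : 0 < r) (hc : c ^ 2 ≤ μ / 64) {t : ℝ}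
    (ht : t ∈ Ioo (t₀ - r ^ 2) t₀) {x : V} (hx : x ∉ ball x₀ (r / 4)) : μ / 64 * r ^ 2 ≤ ψ t x := by
  obtain ⟨κ', h'⟩ := h.toFol
  exact h'.out hμ hr hc ht hx

variable {α σ ρ : ℝ}

lemma Ph_out (h : Fo κ μ c ρ t₀ x₀ ψ) (hμ : 0 < μ) (hρ : 0 < ρ) (hc : c ^ 2 ≤ μ / 64) {t : ℝ}
    (ht : t ∈ Ioo (t₀ - ρ ^ 2) t₀) {x : V} (hx : x ∉ ball x₀ (ρ / 4)) :
    Ph α (μ / 64) σ ρ t₀ ψ t x = 0 := by
  obtain ⟨κ', h'⟩ := h.toFol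
  exact Pool.Agent.N982.MC.Ph_out h' hμ hρ hc ht hx

lemma Ph_low (h : Fo κ μ c ρ t₀ x₀ ψ) (hκ : 0 < κ) (hμ : 0 < μ) (hρ : 0 < ρ) (hσ0 : 0 < σ)
    (hσ : σ ^ 2 ≤ 1 / 32) (hσw : 24 * σ ^ 2 ≤ μ / 64) (hc : c ^ 2 ≤ σ ^ 2) {t : ℝ}
    (ht1 : t₀ - σ ^ 2 * ρ ^ 2 ≤ t) (ht2 : t < t₀) {x : V}
    (hx : x ∈ ball x₀ (σ * ρ)) :
    Real.exp (-3) * Real.exp (-((1 + κ) * Real.log (3 * σ ^ 2)) / 2)
      ≤ Ph (1 + κ) (μ / 64) σ ρ t₀ ψ t x := by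
  have hρ2 : 0 < ρ ^ 2 := by positivity
  have hσ2 : 0 < σ ^ 2 := by positivity
  have hσ1 : σ ≤ 1 := by nlinarith
  have htt : t ∈ Ioo (t₀ - ρ ^ 2) t₀ := by
    have : σ ^ 2 * ρ ^ 2 ≤ 1 / 32 * ρ ^ 2 := mul_le_mul_of_nonneg_right hσ hρ2.le
    exact ⟨by linarith, ht2⟩
  have hσρ : 0 < σ ^ 2 * ρ ^ 2 := by positivity
  refine F0_low (by linarith) (by positivity) hσ0 hσ hσw ?_ ?_ ?_
  · rw [le_div_iff₀ hρ2]
    linarith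
  · rw [div_le_iff₀ hρ2]
    linarith
  · rw [div_le_iff₀ hρ2]
    have h1 := h.up htt (s := σ * ρ) (by positivity) (by nlinarith) (by
      rw [mul_pow]
      exact mul_le_mul_of_nonneg_right hc hρ2.le) hx
    nlinarith

lemma Ph_heat (hμ : 0 < μ) (hκ : 0 < κ) (hκ1 : κ ≤ 3) : ∃ C : ℝ, 0 < C ∧
    ∀ (ψ : ℝ → V → ℝ) (σ ρ t₀ t c : ℝ) (x₀ x : V), Fo κ μ c ρ t₀ x₀ ψ → 0 < ρ →
      0 < σ → σ ^ 2 ≤ 1 / 32 → t ∈ Ioo (t₀ - ρ ^ 2) t₀ → x ∈ ball x₀ ρ →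
        deriv (fun s => Ph (1 + κ) (μ / 64) σ ρ t₀ ψ s x) t
          + lap (Ph (1 + κ) (μ / 64) σ ρ t₀ ψ t) x
          ≤ C / ρ ^ 2 + 1 / ρ ^ 2 * Fq (1 + κ) (μ / 64) σ ((t - t₀) / ρ ^ 2) (ψ t x / ρ ^ 2)
            * deriv (fun s => ψ s x) t := by
  obtain ⟨C, hC, hh⟩ := heat (w := μ / 64) (by positivity)
  refine ⟨C, hC, fun ψ σ ρ t₀ t c x₀ x hF hρ hσ0 hσ htt hx => ?_⟩
  have hρ2 : 0 < ρ ^ 2 := by positivity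
  have ht : t < t₀ + 2 * σ ^ 2 * ρ ^ 2 := by
    have : 0 < σ ^ 2 * ρ ^ 2 := by positivity
    linarith [htt.2]
  rw [Ph_deriv hF.smooth hρ ht, Ph_lap (hF.sm t)]
  have h2 : 0 < 2 * σ ^ 2 - (t - t₀) / ρ ^ 2 := by
    rw [sub_pos, div_lt_iff₀ hρ2]
    linarith
  have hg := hF.grad t htt x hx
  have hh1 := hF.conv t htt x hx
  have hn := hF.nn htt hx
  have hsn : 0 ≤ ∑ j, pd j (ψ t) x ^ 2 := Finset.sum_nonneg fun i _ => sq_nonneg _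
  have h3 := hh (1 + κ) σ ((t - t₀) / ρ ^ 2) (ψ t x / ρ ^ 2)
    ((∑ j, pd j (ψ t) x ^ 2) / (4 * ρ ^ 2)) (lap (ψ t) x)
    (by linarith) (by linarith) hσ h2 (by positivity) (by positivity) (by
      rw [div_le_div_iff₀ (by positivity) hρ2]
      nlinarith) hh1
  obtain ⟨X, hX⟩ : ∃ X, X = Fq (1 + κ) (μ / 64) σ ((t - t₀) / ρ ^ 2) (ψ t x / ρ ^ 2) := ⟨_, rfl⟩
  obtain ⟨Y, hY⟩ : ∃ Y, Y = Ft (1 + κ) (μ / 64) σ ((t - t₀) / ρ ^ 2) (ψ t x / ρ ^ 2) := ⟨_, rfl⟩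
  obtain ⟨Z, hZ⟩ : ∃ Z, Z = Fqq (1 + κ) (μ / 64) σ ((t - t₀) / ρ ^ 2) (ψ t x / ρ ^ 2) := ⟨_, rfl⟩
  rw [← hX, ← hY, ← hZ] at h3 ⊢
  have h4 := div_le_div_of_nonneg_right h3 hρ2.le
  have e : (Y + X * deriv (fun s => ψ s x) t) / ρ ^ 2 + (X * lap (ψ t) x / ρ ^ 2
      + Z * (∑ j, pd j (ψ t) x ^ 2) / (ρ ^ 2) ^ 2)
      = (Y + lap (ψ t) x * X + 4 * ((∑ j, pd j (ψ t) x ^ 2) / (4 * ρ ^ 2)) * Z) / ρ ^ 2
        + 1 / ρ ^ 2 * X * deriv (fun s => ψ s x) t := by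
    field_simp
    ring
  rw [e]
  linarith

lemma Ph_grad (hμ : 0 < μ) (hκ : 0 < κ) (hκ1 : κ ≤ 3) {σ : ℝ} (hσ0 : 0 < σ)
    (hσ : σ ^ 2 ≤ 1 / 32) : ∃ C : ℝ, 0 < C ∧ ∀ (ψ : ℝ → V → ℝ) (ρ t₀ t c : ℝ) (x₀ x : V),
      Fo κ μ c ρ t₀ x₀ ψ → 0 < ρ → c ^ 2 ≤ μ / 64 → t ∈ Ioo (t₀ - ρ ^ 2) t₀ →
        (x ∈ ball x₀ ρ → -C ≤ Fq (1 + κ) (μ / 64) σ ((t - t₀) / ρ ^ 2) (ψ t x / ρ ^ 2)) ∧
        Fq (1 + κ) (μ / 64) σ ((t - t₀) / ρ ^ 2) (ψ t x / ρ ^ 2) ≤ 0 ∧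
        (x ∉ ball x₀ (ρ / 4) →
          Fq (1 + κ) (μ / 64) σ ((t - t₀) / ρ ^ 2) (ψ t x / ρ ^ 2) = 0) := by
  obtain ⟨C, hC, hh⟩ := Fq_bd (w := μ / 64) (by positivity) hσ0 hσ
  refine ⟨C, hC, fun ψ ρ t₀ t c x₀ x hF hρ hc htt => ?_⟩
  have hρ2 : 0 < ρ ^ 2 := by positivity
  have hσ2 : 0 < σ ^ 2 := by positivity
  have h1 : (t - t₀) / ρ ^ 2 ≤ σ ^ 2 := by
    rw [div_le_iff₀ hρ2]
    have : 0 < σ ^ 2 * ρ ^ 2 := by positivity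
    linarith [htt.2]
  refine ⟨fun hx => hh (1 + κ) _ _ (by linarith) h1 (div_nonneg (hF.nn htt hx) hρ2.le),
    Fq_np (by positivity) (by linarith), fun hx => ?_⟩
  refine Fq_supp (by positivity) ?_
  rw [le_div_iff₀ hρ2]
  exact hF.out hμ hρ hc htt hx

/-- The bound of the flux term by the inward flux. -/
lemma flux_in {κ μ : ℝ} (hκ : 0 < κ) (hκ1 : κ ≤ 3) (hμ : 0 < μ) {σ : ℝ} (hσ0 : 0 < σ)
    (hσ : σ ^ 2 ≤ 1 / 32) : ∃ C : ℝ, 0 < C ∧ ∀ (ψ : ℝ → V → ℝ) (v : V → V) (q : V → ℝ),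
      ContDiff ℝ ∞ v → ContDiff ℝ ∞ q → ∀ (a : V) (ρ t₀ t c : ℝ), Fo κ μ c ρ t₀ a ψ → 0 < ρ →
        c ^ 2 ≤ μ / 64 → t ∈ Ioo (t₀ - ρ ^ 2) t₀ → (∀ x ∈ ball a ρ, dv v x = 0) →
          ∫ x, (nsq v x + 2 * q x) * adv v (Ph (1 + κ) (μ / 64) σ ρ t₀ ψ t) x
            ≤ C / ρ ^ 2 * FI (ψ t) a ρ v q := by
  obtain ⟨C, hC, hgr⟩ := Pool.Agent.N982.EM.Ph_grad hμ hκ hκ1 hσ0 hσ
  refine ⟨C, hC, ?_⟩
  intro ψ v q hv hq a ρ t₀ t c hF hρ hc htt hdiv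
  have hρ2 : 0 < ρ ^ 2 := by positivity
  have hσ2 : 0 < σ ^ 2 * ρ ^ 2 := by positivity
  have hψ := hF.sm t
  obtain ⟨m, hm⟩ : ∃ m, m = pav q a ρ := ⟨_, rfl⟩
  obtain ⟨Φ, hΦ⟩ : ∃ Φ, Φ = Ph (1 + κ) (μ / 64) σ ρ t₀ ψ t := ⟨_, rfl⟩
  have hΦs : ContDiff ℝ ∞ Φ := by
    rw [hΦ]
    exact sl_sm (Ph_smooth (α := 1 + κ) (w := μ / 64) (σ := σ) (t₀ := t₀) hF.smooth hρ)
      (show t ∈ Iio (t₀ + 2 * σ ^ 2 * ρ ^ 2) by
        rw [mem_Iio]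
        linarith [htt.2])
  have hΦ0 : ∀ x ∉ ball a (ρ / 4), Φ x = 0 := by
    intro x hx
    rw [hΦ]
    exact Pool.Agent.N982.EM.Ph_out hF hμ hρ hc htt hx
  have hcs : HasCompactSupport Φ := HasCompactSupport.intro (isCompact_closedBall a (ρ / 4))
    fun x hx => hΦ0 x fun h => hx (ball_subset_closedBall h)
  have hsub : ball a (ρ / 4) ⊆ ball a (ρ / 2) := ball_subset_ball (by linarith)
  have hadv0 : ∀ x ∉ ball a (ρ / 4), adv v Φ x = 0 := by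
    intro x hx
    rw [hΦ, Ph_adv hψ]
    have h1 := (hgr ψ ρ t₀ t c a x hF hρ hc htt).2.2 hx
    rw [h1]
    ring
  have hnc := (nsq_sm hv).continuous
  have hqc := hq.continuous
  have hadvc : Continuous (adv v Φ) := by
    unfold adv
    exact continuous_finsetSum _ fun i _ =>
      (contDiff_pi.1 hv i).continuous.mul (Pool.Agent.W240.ME.cd_pd hΦs i).continuous
  have hacs : HasCompactSupport (adv v Φ) :=
    HasCompactSupport.intro (isCompact_closedBall a (ρ / 4))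
      fun x hx => hadv0 x fun h => hx (ball_subset_closedBall h)
  -- subtract the mean
  have hz : ∫ x, adv v Φ x = 0 := by
    have h1 := Pool.Agent.W699.ME.ibp2 hv (f := fun _ => 1) contDiff_const hΦs hcs (by
      intro x hx
      refine hdiv x ?_
      by_contra hc
      exact hx (hΦ0 x fun h => hc (ball_subset_ball (by linarith) h)))
    have h2 : ∀ x, adv v (fun _ => (1 : ℝ)) x = 0 := by
      intro x
      unfold adv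
      refine Finset.sum_eq_zero fun j _ => ?_
      rw [Pool.Agent.W240.ME.pd_const, mul_zero]
    simp only [one_mul, h2, mul_zero, integral_zero, neg_zero] at h1
    exact h1
  have e1 : ∫ x, (nsq v x + 2 * q x) * adv v Φ x
      = ∫ x, (nsq v x + 2 * (q x - m)) * adv v Φ x := by
    have i1 : Integrable (fun x => (nsq v x + 2 * (q x - m)) * adv v Φ x) :=
      (Continuous.mul (by fun_prop) hadvc).integrable_of_hasCompactSupport hacs.mul_left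
    have i2 : Integrable (fun x => 2 * m * adv v Φ x) :=
      (hadvc.integrable_of_hasCompactSupport hacs).const_mul _
    have e2 : ∀ x, (nsq v x + 2 * q x) * adv v Φ x
        = (nsq v x + 2 * (q x - m)) * adv v Φ x + 2 * m * adv v Φ x := fun x => by ring
    simp_rw [e2]
    rw [integral_add i1 i2, integral_const_mul, hz, mul_zero, add_zero]
  have e3 : ∫ x, (nsq v x + 2 * (q x - m)) * adv v Φ x
      = ∫ x in ball a (ρ / 2), (nsq v x + 2 * (q x - m)) * adv v Φ x := by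
    symm
    refine setIntegral_eq_integral_of_forall_compl_eq_zero fun x hx => ?_
    rw [hadv0 x fun h => hx (hsub h), mul_zero]
  rw [← hΦ, e1, e3]
  unfold FI
  rw [← hm, ← integral_const_mul]
  refine setIntegral_mono_on (ballint (Continuous.mul (by fun_prop) hadvc) _ _)
    (ballint (continuous_const.mul (ngf_cont hψ hv hq m)) _ _) measurableSet_ball fun x hx => ?_
  obtain ⟨g1, g2, -⟩ := hgr ψ ρ t₀ t c a x hF hρ hc htt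
  have g1 := g1 (ball_subset_ball (by linarith) hx)
  rw [hΦ, Ph_adv hψ]
  unfold ngf
  obtain ⟨F, hFd⟩ : ∃ F, F = Fq (1 + κ) (μ / 64) σ ((t - t₀) / ρ ^ 2)
    (ψ t x / ρ ^ 2) := ⟨_, rfl⟩
  rw [← hFd] at g1 g2 ⊢
  obtain ⟨H, hH⟩ : ∃ H, H = nsq v x + 2 * (q x - m) := ⟨_, rfl⟩
  obtain ⟨f, hf⟩ : ∃ f, f = fl (ψ t) v x := ⟨_, rfl⟩
  have e4 : H * (1 / ρ ^ 2 * F * f) = 1 / ρ ^ 2 * (F * (H * f)) := by ring
  have e5 : C / ρ ^ 2 * max 0 (-(H * f)) = 1 / ρ ^ 2 * (C * max 0 (-(H * f))) := by ring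
  rw [← hH, ← hf, e4, e5]
  refine mul_le_mul_of_nonneg_left ?_ (by positivity)
  by_cases hneg : H * f < 0
  · rw [max_eq_right (by linarith)]
    nlinarith
  · rw [not_lt] at hneg
    rw [max_eq_left (by linarith), mul_zero]
    exact mul_nonpos_of_nonpos_of_nonneg g2 hneg

end

end Pool.Agent.N982.EM
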