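import Pool.Agent.N982.MC.Def
import Pool.Agent.N982.MC.StepA
import Pool.Agent.N982.EM.Fo

/-!
The definitions: the flux of energy through closed surfaces which may move.
-/

set_option autoImplicit false

open MeasureTheory Set Metric
open scoped ContDiff

namespace Pool.Agent.N982.EM

open H459R3.NS W221.NS Pool.Agent.Y8 Pool.Agent.N982.MC

/-- For the times of the backward window `t₀ - r² / ν < t < t₀`, the level sets of `ψ t` are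
surfaces around `x₀` at the scale `r`: `ψ ≤ (c r)²` at `x₀`, `μ |x - x₀|² ≤ ψ + (c r)²` everywhere,
and `|∇ψ|² ≤ 4 ψ`, `Δψ ≥ 2 (1 + κ)` in the ball. -/
structure FoN (ν κ μ c r t₀ : ℝ) (x₀ : V) (ψ : ℝ → V → ℝ) : Prop where
  smooth : ContDiff ℝ ∞ (fun z : ℝ × V => ψ z.1 z.2)
  center : ∀ t, t < t₀ → ν * (t₀ - t) < r ^ 2 → ψ t x₀ ≤ (c * r) ^ 2
  low : ∀ t, t < t₀ → ν * (t₀ - t) < r ^ 2 → ∀ x,
    μ * ∑ i, (x i - x₀ i) ^ 2 ≤ ψ t x + (c * r) ^ 2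
  grad : ∀ t, t < t₀ → ν * (t₀ - t) < r ^ 2 → ∀ x ∈ ball x₀ r,
    ∑ i, pd i (ψ t) x ^ 2 ≤ 4 * ψ t x
  conv : ∀ t, t < t₀ → ν * (t₀ - t) < r ^ 2 → ∀ x ∈ ball x₀ r, 2 * (1 + κ) ≤ lap (ψ t) x

/-- A profile `η(τ, s)`, smooth for `τ < 0`, with values in `[0, 1]` for `τ ≤ 0 ≤ s`, which vanishes
for `s ≥ b` and for `τ ≤ -1/16`. -/
structure Profile (b : ℝ) (η : ℝ → ℝ → ℝ) : Prop where
  smooth : ContDiffOn ℝ ∞ (fun z : ℝ × ℝ => η z.1 z.2) (Iio 0 ×ˢ univ)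
  nonneg : ∀ τ s, τ ≤ 0 → 0 ≤ s → 0 ≤ η τ s
  le_one : ∀ τ s, τ ≤ 0 → 0 ≤ s → η τ s ≤ 1
  supp : ∀ τ s, b ≤ s → η τ s = 0
  early : ∀ τ s, τ ≤ -1 / 16 → η τ s = 0

/-- The density `|u|² (∂ₜψ + u · ∇ψ) + 2 p u · ∇ψ` of the flux of energy outwards through the moving
level surfaces of `ψ`. -/
noncomputable def ef (u : ℝ → V → V) (p : ℝ → V → ℝ) (ψ : ℝ → V → ℝ) (t : ℝ) (x : V) : ℝ :=
  nsq (u t) x * deriv (fun s => ψ s x) t + (nsq (u t) x + 2 * p t x) * fl (ψ t) (u t) x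

/-- The energy which has left through the moving level surfaces of `ψ` until the time `t`, weighted
with the profile `η`: the integral of `η(ν (s - t₀) / r², ψ / r²) ef` over the ball and the times
`s < t` of the backward window. -/
noncomputable def nFlux (ν : ℝ) (η : ℝ → ℝ → ℝ) (G : Set ℝ) (t₀ : ℝ) (x₀ : V) (u : ℝ → V → V)
    (p : ℝ → V → ℝ) (r : ℝ) (ψ : ℝ → V → ℝ) (t : ℝ) : ℝ :=
  ∫ s in Wv ν G t₀ r ∩ Iio t, ∫ x in ball x₀ r,
    η (ν * (s - t₀) / r ^ 2) (ψ s x / r ^ 2) * ef u p ψ s x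

/-- The energy in the ball `B` of radius `r` and the backward window:
`ν² r + sup ∫ |u|² + ν ∫∫ |∇u|²`. -/
noncomputable def Eb (ν : ℝ) (G : Set ℝ) (t₀ : ℝ) (x₀ : V) (u : ℝ → V → V) (r : ℝ) : ℝ :=
  ν ^ 2 * r + sSup ((fun t => A2 x₀ r (u t)) '' Wv ν G t₀ r) + ν * ∫ t in Wv ν G t₀ r, B2 x₀ r (u t)

/-- At the scale `r` energy enters through all systems of closed surfaces around `x₀`: for every
`ψ` there is a time `t` with `t₀ - (c r)² / ν < t < t₀` such that the energy which has entered until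
`t` is more than `ε r²` times the energy in the ball. -/
def Influx (ν κ μ c ε : ℝ) (η : ℝ → ℝ → ℝ) (G : Set ℝ) (t₀ : ℝ) (x₀ : V) (u : ℝ → V → V)
    (p : ℝ → V → ℝ) (r : ℝ) : Prop :=
  ∀ ψ : ℝ → V → ℝ, FoN ν κ μ c r t₀ x₀ ψ → ∃ t ∈ Wv ν G t₀ (c * r),
    nFlux ν η G t₀ x₀ u p r ψ t < -(ε * r ^ 2 * Eb ν G t₀ x₀ u r)

/-- The flux term of the test function at the time `t`. -/
noncomputable def PF (α w σ ρ t₀ : ℝ) (ψ : ℝ → V → ℝ) (u : ℝ → V → V) (p : ℝ → V → ℝ) (t : ℝ) : ℝ :=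
  ∫ x, 1 / ρ ^ 2 * Fq α w σ ((t - t₀) / ρ ^ 2) (ψ t x / ρ ^ 2) * ef u p ψ t x

/-- The net inward flux at the scale `ρ` is at most `θ ρ N`. -/
def HE (G : Set ℝ) (t₀ : ℝ) (x₀ : V) (u : ℝ → V → V) (p : ℝ → V → ℝ) (κ μ c θ ρ N : ℝ) : Prop :=
  ∃ ψ : ℝ → V → ℝ, Fo κ μ c ρ t₀ x₀ ψ ∧ ∀ t ∈ Wn G t₀ (c * ρ),
    ∫ s in Wn G t₀ ρ ∩ Iio t, PF (1 + κ) (μ / 64) c ρ t₀ ψ u p s ≤ θ * ρ * N

lemma Fq_ct (α w σ τ : ℝ) : Continuous (Fq α w σ τ) :=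
  continuous_iff_continuousAt.2 fun q => (Fq_hdq α w σ τ q).continuousAt

lemma ef_ct {ψ : ℝ → V → ℝ} (hψ : ContDiff ℝ ∞ (fun z : ℝ × V => ψ z.1 z.2)) {u : ℝ → V → V}
    {p : ℝ → V → ℝ} {t : ℝ} (hu : ContDiff ℝ ∞ (u t)) (hp : ContDiff ℝ ∞ (p t)) :
    Continuous (ef u p ψ t) := by
  unfold ef
  have h1 : Continuous fun x : V => deriv (fun s => ψ s x) t :=
    (dt_ct hψ).comp (continuous_const.prodMk continuous_id)
  have h2 : ContDiff ℝ ∞ (ψ t) := hψ.comp (contDiff_const.prodMk contDiff_id)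
  exact ((nsq_sm hu).continuous.mul h1).add (((nsq_sm hu).continuous.add
    (continuous_const.mul hp.continuous)).mul (fl_cont h2 hu))

/-- The bound of the energy production. -/
lemma DD_pt {κ μ : ℝ} (hκ : 0 < κ) (hκ1 : κ ≤ 3) (hμ : 0 < μ) :
    ∃ Ch : ℝ, 0 < Ch ∧ ∀ σ : ℝ, 0 < σ → σ ^ 2 ≤ 1 / 32 →
    ∀ (G : Set ℝ) (t₀ : ℝ) (x₀ : V) (R : ℝ) (u : ℝ → V → V) (p : ℝ → V → ℝ),
      LS G t₀ x₀ R u p → ∀ ρ a c : ℝ, 0 < ρ → ρ ≤ R → 0 < a →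
        c ^ 2 ≤ μ / 64 → PA G t₀ x₀ u ρ a → ∀ ψ : ℝ → V → ℝ, Fo κ μ c ρ t₀ x₀ ψ →
            ∀ t ∈ Wn G t₀ ρ,
              DD 1 u p (Ph (1 + κ) (μ / 64) σ ρ t₀ ψ) t
                + 2 * ∫ x, gsq (u t) x * Ph (1 + κ) (μ / 64) σ ρ t₀ ψ t x
                ≤ Ch / ρ ^ 2 * (ρ * a) + PF (1 + κ) (μ / 64) σ ρ t₀ ψ u p t := by
  obtain ⟨Ch, hCh, hheat⟩ := Pool.Agent.N982.EM.Ph_heat hμ hκ hκ1
  refine ⟨Ch, hCh, ?_⟩
  intro σ hσ0 hσ
  intro G t₀ x₀ R u p hLS ρ a c hρ hρR ha hc hPA ψ hF t ht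
  have hρ2 : 0 < ρ ^ 2 := by positivity
  have hus := sl_sm hLS.smooth_u ht.1
  have hps := sl_sm hLS.smooth_p ht.1
  have htw : t ∈ Ioo (t₀ - ρ ^ 2) t₀ := ht.2
  have htt : t < t₀ + 2 * σ ^ 2 * ρ ^ 2 := by
    have : 0 < σ ^ 2 * ρ ^ 2 := by positivity
    linarith [htw.2]
  have hsm := Ph_smooth (α := 1 + κ) (w := μ / 64) (σ := σ) (t₀ := t₀) hF.smooth hρ
  have hdt : Continuous fun x => deriv (fun s => Ph (1 + κ) (μ / 64) σ ρ t₀ ψ s x) t :=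
    sl_ct (H := Iio (t₀ + 2 * σ ^ 2 * ρ ^ 2))
      (F := fun t x => deriv (fun s => Ph (1 + κ) (μ / 64) σ ρ t₀ ψ s x) t)
      (dt_joint isOpen_Iio hsm).continuousOn htt
  have hlp : Continuous fun x => lap (Ph (1 + κ) (μ / 64) σ ρ t₀ ψ t) x :=
    sl_ct (H := Iio (t₀ + 2 * σ ^ 2 * ρ ^ 2))
      (F := fun t x => lap (Ph (1 + κ) (μ / 64) σ ρ t₀ ψ t) x)
      (lap_joint isOpen_Iio hsm).continuousOn htt
  have hwin : ∀ᶠ s in nhds t, s ∈ Ioo (t₀ - ρ ^ 2) t₀ := isOpen_Ioo.mem_nhds htw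
  have hz : ∀ x ∉ closedBall x₀ (ρ / 4), nsq (u t) x *
      (deriv (fun s => Ph (1 + κ) (μ / 64) σ ρ t₀ ψ s x) t
      + 1 * lap (Ph (1 + κ) (μ / 64) σ ρ t₀ ψ t) x) = 0 := by
    intro x hx
    have g1 : deriv (fun s => Ph (1 + κ) (μ / 64) σ ρ t₀ ψ s x) t = 0 := by
      have : (fun s => Ph (1 + κ) (μ / 64) σ ρ t₀ ψ s x) =ᶠ[nhds t] fun _ => 0 := by
        filter_upwards [hwin] with s hs
        exact Pool.Agent.N982.EM.Ph_out hF hμ hρ hc hs (fun h => hx (ball_subset_closedBall h))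
      rw [this.deriv_eq]
      simp
    have hop : IsOpen (closedBall x₀ (ρ / 4))ᶜ := isClosed_closedBall.isOpen_compl
    have g2 : ∀ y ∈ (closedBall x₀ (ρ / 4))ᶜ,
        Ph (1 + κ) (μ / 64) σ ρ t₀ ψ t y = (fun _ => (0 : ℝ)) y := fun y hy =>
      Pool.Agent.N982.EM.Ph_out hF hμ hρ hc htw (fun h => hy (ball_subset_closedBall h))
    have g3 : lap (Ph (1 + κ) (μ / 64) σ ρ t₀ ψ t) x = 0 := by
      unfold lap
      refine Finset.sum_eq_zero fun j _ => ?_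
      rw [Pool.Agent.W240.ME.pd_congr' hop
        (Pool.Agent.W240.ME.pd_congr' hop g2 j) j x hx]
      have : pd j (fun _ : V => (0 : ℝ)) = fun _ => 0 := by
        funext y
        exact Pool.Agent.W240.ME.pd_const 0 j y
      rw [this, Pool.Agent.W240.ME.pd_const]
    rw [g1, g3]
    ring
  have hFz : ∀ x ∉ ball x₀ ρ,
      Fq (1 + κ) (μ / 64) σ ((t - t₀) / ρ ^ 2) (ψ t x / ρ ^ 2) = 0 := by
    intro x hx
    refine Fq_supp (by positivity) ?_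
    rw [le_div_iff₀ hρ2]
    exact hF.out hμ hρ hc htw fun h => hx (ball_subset_ball (by linarith) h)
  have hcb : closedBall x₀ (ρ / 4) ⊆ ball x₀ ρ := closedBall_subset_ball (by linarith)
  have hnc := (nsq_sm hus).continuous
  have hψs := hF.sm t
  have hΦs : ContDiff ℝ ∞ (Ph (1 + κ) (μ / 64) σ ρ t₀ ψ t) := sl_sm hsm htt
  have hadvc : Continuous (adv (u t) (Ph (1 + κ) (μ / 64) σ ρ t₀ ψ t)) := by
    unfold adv
    exact continuous_finsetSum _ fun i _ =>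
      (contDiff_pi.1 hus i).continuous.mul (Pool.Agent.W240.ME.cd_pd hΦs i).continuous
  have hFc : Continuous fun x : V =>
      1 / ρ ^ 2 * Fq (1 + κ) (μ / 64) σ ((t - t₀) / ρ ^ 2) (ψ t x / ρ ^ 2) :=
    continuous_const.mul ((Fq_ct _ _ _ _).comp (hψs.continuous.div_const _))
  have hefc := ef_ct hF.smooth hus hps
  -- the heat part and the flux part
  have h1 : (∫ x, nsq (u t) x * (deriv (fun s => Ph (1 + κ) (μ / 64) σ ρ t₀ ψ s x) t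
      + 1 * lap (Ph (1 + κ) (μ / 64) σ ρ t₀ ψ t) x))
      + ∫ x, (nsq (u t) x + 2 * p t x) * adv (u t) (Ph (1 + κ) (μ / 64) σ ρ t₀ ψ t) x
      ≤ Ch / ρ ^ 2 * (ρ * a) + PF (1 + κ) (μ / 64) σ ρ t₀ ψ u p t := by
    have e1 : PF (1 + κ) (μ / 64) σ ρ t₀ ψ u p t = ∫ x in ball x₀ ρ,
        1 / ρ ^ 2 * Fq (1 + κ) (μ / 64) σ ((t - t₀) / ρ ^ 2) (ψ t x / ρ ^ 2)
          * ef u p ψ t x := by
      unfold PF
      rw [ball_int_eq]
      intro x hx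
      rw [hFz x hx]
      ring
    rw [e1, ← ball_int_eq (a := x₀) (R := ρ) fun x hx => hz x fun h => hx (hcb h),
      ← ball_int_eq (a := x₀) (R := ρ)
        (f := fun x => (nsq (u t) x + 2 * p t x)
          * adv (u t) (Ph (1 + κ) (μ / 64) σ ρ t₀ ψ t) x) (fun x hx => by
            rw [Ph_adv hψs, hFz x hx]
            ring)]
    have c1 : Continuous fun x => nsq (u t) x *
        (deriv (fun s => Ph (1 + κ) (μ / 64) σ ρ t₀ ψ s x) t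
          + 1 * lap (Ph (1 + κ) (μ / 64) σ ρ t₀ ψ t) x) :=
      hnc.mul (hdt.add (continuous_const.mul hlp))
    have c2 : Continuous fun x => (nsq (u t) x + 2 * p t x)
        * adv (u t) (Ph (1 + κ) (μ / 64) σ ρ t₀ ψ t) x :=
      (hnc.add (continuous_const.mul hps.continuous)).mul hadvc
    have c3 : Continuous fun x => Ch / ρ ^ 2 * nsq (u t) x := continuous_const.mul hnc
    have c4 : Continuous fun x =>
        1 / ρ ^ 2 * Fq (1 + κ) (μ / 64) σ ((t - t₀) / ρ ^ 2) (ψ t x / ρ ^ 2)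
          * ef u p ψ t x := hFc.mul hefc
    rw [← integral_add (ballint c1 _ _) (ballint c2 _ _)]
    calc _ ≤ ∫ x in ball x₀ ρ, (Ch / ρ ^ 2 * nsq (u t) x
          + 1 / ρ ^ 2 * Fq (1 + κ) (μ / 64) σ ((t - t₀) / ρ ^ 2) (ψ t x / ρ ^ 2)
            * ef u p ψ t x) := by
          refine setIntegral_mono_on (ballint (c1.add c2) _ _)
            (ballint (c3.add c4) _ _) measurableSet_ball fun x hx => ?_
          have h5 := hheat ψ σ ρ t₀ t c x₀ x hF hρ hσ0 hσ htw hx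
          have h6 := mul_le_mul_of_nonneg_left h5 (nsq_nn (u t) x)
          rw [Ph_adv hψs]
          unfold ef
          rw [one_mul]
          linarith
      _ = (Ch / ρ ^ 2 * A2 x₀ ρ (u t)) + ∫ x in ball x₀ ρ,
            1 / ρ ^ 2 * Fq (1 + κ) (μ / 64) σ ((t - t₀) / ρ ^ 2) (ψ t x / ρ ^ 2)
              * ef u p ψ t x := by
          rw [integral_add (ballint c3 _ _) (ballint c4 _ _), integral_const_mul]
          rfl
      _ ≤ _ := add_le_add (mul_le_mul_of_nonneg_left (hPA.1 t ht) (by positivity)) le_rfl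
  unfold DD
  linarith

end Pool.Agent.N982.EM
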