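import Pool.Agent.N982.EM.Reg2

/-!
The dichotomy: influx at no small scale (regular points) or at a fixed proportion of the scales
(singular points).
-/

set_option autoImplicit false

open MeasureTheory Set Metric Filter Topology
open scoped ContDiff Pointwise

namespace Pool.Agent.N982.EM

open H459R3.NS W221.NS Pool.Agent.Y8 Pool.Agent.N982.MC

/-- A scale without influx is good for the iteration. -/
theorem good_ge2 {κ μ : ℝ} (hκ1 : κ ≤ 3) (hμ : 0 < μ) {c : ℝ}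
    (hc0 : 0 < c) (hc32 : c ^ 2 ≤ 1 / 32) (hcμ : c ^ 2 ≤ μ / 64) :
    ∃ C Cq : ℝ, 0 < C ∧ 0 < Cq ∧ Profile (μ / 64) (eta κ μ c Cq) ∧ ∀ (T E D : ℝ) (G : Set ℝ)
    (u : ℝ → V → V) (p : ℝ → V → ℝ), Turb 1 T E D G u p →
      ∀ (t₀ : ℝ) (x₀ : V) (θ ρ : ℝ), 0 < ρ → ρ ≤ 1 →
      0 < θ → t₀ ≤ T → ρ ^ 2 ≤ t₀ → SingPt G u t₀ x₀ →
        ¬ Influx 1 κ μ c (θ / C) (eta κ μ c Cq) G t₀ x₀ u p ρ →
          GE G t₀ x₀ u p κ μ c θ ρ := by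
  obtain ⟨Cq, hCq, hq⟩ := Fq_bd (w := μ / 64) (by positivity) hc0 hc32
  obtain ⟨θ₀, hθ₀, hlow⟩ := Pool.Agent.N982.EM.En_low
  refine ⟨Cq * (2 * (1 + 1 / θ₀)), Cq, by positivity, hCq,
    eta_profile hκ1 hμ hc0 hCq hq, ?_⟩
  intro T E D G u p h t₀ x₀ θ ρ hρ hρ1 hθ ht₀ hρt hsing hgood a ha hA
  unfold Influx at hgood
  push Not at hgood
  obtain ⟨ψ, hFN, hfl⟩ := hgood
  have hF := FoN_one hFN
  have hρ2 : 0 < ρ ^ 2 := by positivity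
  refine ⟨ψ, hF, fun t ht => ?_⟩
  have h1 := hfl t (by rw [Wv_one]; exact ht)
  rw [nFlux_PF hμ hcμ hCq h.openG hρ hF] at h1
  obtain ⟨I, hI⟩ : ∃ I, I = ∫ s in Wn G t₀ ρ ∩ Iio t,
    PF (1 + κ) (μ / 64) c ρ t₀ ψ u p s := ⟨_, rfl⟩
  rw [← hI] at h1 ⊢
  have h0 := hlow T E D G u p h t₀ x₀ ρ hρ hρ1 ht₀ hρt hsing
  unfold Eb at h1
  rw [Wv_one] at h1
  have hs : sSup ((fun t => A2 x₀ ρ (u t)) '' Wn G t₀ ρ) ≤ ρ * a := by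
    refine Real.sSup_le ?_ (by positivity)
    rintro _ ⟨t, ht, rfl⟩
    exact hA.1 t ht
  have hB := hA.2.2
  obtain ⟨s, hsd⟩ : ∃ s, s = sSup ((fun t => A2 x₀ ρ (u t)) '' Wn G t₀ ρ) := ⟨_, rfl⟩
  obtain ⟨b, hb⟩ : ∃ b, b = ∫ t in Wn G t₀ ρ, B2 x₀ ρ (u t) := ⟨_, rfl⟩
  rw [← hsd, ← hb] at h0 h1
  rw [← hsd] at hs
  rw [← hb] at hB
  have h5 : 1 ^ 2 * ρ + s + 1 * b ≤ 2 * (1 + 1 / θ₀) * (ρ * a) := by
    have e : ρ ≤ 1 / θ₀ * (s + b) := by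
      rw [one_div, ← div_eq_inv_mul, le_div_iff₀ hθ₀]
      exact h0
    have e2 : 1 / θ₀ * (s + b) ≤ 1 / θ₀ * (2 * (ρ * a)) :=
      mul_le_mul_of_nonneg_left (by linarith) (by positivity)
    calc 1 ^ 2 * ρ + s + 1 * b ≤ 1 / θ₀ * (2 * (ρ * a)) + 2 * (ρ * a) := by linarith
      _ = _ := by ring
  have h6 : ρ ^ 2 / Cq * I ≤ θ / (Cq * (2 * (1 + 1 / θ₀))) * ρ ^ 2
      * (1 ^ 2 * ρ + s + 1 * b) := by
    linarith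
  have h7 : I ≤ Cq / ρ ^ 2 * (θ / (Cq * (2 * (1 + 1 / θ₀))) * ρ ^ 2
      * (1 ^ 2 * ρ + s + 1 * b)) := by
    have := mul_le_mul_of_nonneg_left h6 (show 0 ≤ Cq / ρ ^ 2 by positivity)
    refine le_trans (le_of_eq ?_) this
    field_simp
  refine h7.trans ?_
  calc Cq / ρ ^ 2 * (θ / (Cq * (2 * (1 + 1 / θ₀))) * ρ ^ 2 * (1 ^ 2 * ρ + s + 1 * b))
      ≤ Cq / ρ ^ 2 * (θ / (Cq * (2 * (1 + 1 / θ₀))) * ρ ^ 2
        * (2 * (1 + 1 / θ₀) * (ρ * a))) := by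
        apply mul_le_mul_of_nonneg_left _ (by positivity)
        exact mul_le_mul_of_nonneg_left h5 (by positivity)
    _ = θ * ρ * a := by
        field_simp

open Classical in
/-- The theorem for viscosity one. -/
theorem dich_one {κ μ q : ℝ} (hκ : 0 < κ) (hκ1 : κ ≤ 2) (hμ : 0 < μ) (hμ1 : μ ≤ 1)
    (hq : 1 < q * (1 + κ)) :
    ∃ (c ε : ℝ) (η : ℝ → ℝ → ℝ), 0 < c ∧ c < 1 ∧ 0 < ε ∧ Profile (μ / 64) η ∧
      ∀ E D r₀ : ℝ, 0 < r₀ → r₀ ≤ 1 → ∃ N : ℕ,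
      ∀ (T : ℝ) (G : Set ℝ) (u : ℝ → V → V) (p : ℝ → V → ℝ), Turb 1 T E D G u p →
        ∀ (t₀ : ℝ) (x₀ : V), t₀ ≤ T → r₀ ^ 2 ≤ t₀ →
          (SingPt G u t₀ x₀ → ∀ n : ℕ, N ≤ n →
            (1 - q) * n < Nat.count (fun k => Influx 1 κ μ c ε η G t₀ x₀ u p (c ^ k * r₀)) n) ∧
          (¬ SingPt G u t₀ x₀ →
            ∃ M : ℕ, ∀ k : ℕ, M ≤ k → ¬ Influx 1 κ μ c ε η G t₀ x₀ u p (c ^ k * r₀)) := by
  obtain ⟨σ, θ, hσ, hσ1, hθ, hσ32, hσμ, hit⟩ := Pool.Agent.N982.EM.iter_all hκ hκ1 hμ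
    (δ := q * (1 + κ) - 1) (by linarith)
  obtain ⟨C, Cq, hC, hCq, hη, hgg⟩ := good_ge2 (κ := κ) (by linarith) hμ hσ hσ32 hσμ
  obtain ⟨θ', hθ', hreg⟩ := reg_pt
  refine ⟨σ, θ / C, eta κ μ σ Cq, hσ, hσ1, by positivity, hη, ?_⟩
  intro E D r₀ hr₀ hr₀1
  obtain ⟨C₁, hC₁, hA⟩ := start_A r₀ hr₀
  obtain ⟨M, hM⟩ : ∃ M, M = C₁ * (E ^ 2 + D + 1) := ⟨_, rfl⟩
  obtain ⟨N, hN⟩ : ∃ N : ℕ, ∀ n : ℕ, N ≤ n → (1 / 2 : ℝ) ^ n * M ≤ θ' ∧ σ ^ n * r₀ ≤ 1 := by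
    have h1 : Tendsto (fun n : ℕ => (1 / 2 : ℝ) ^ n * M) atTop (𝓝 (0 * M)) :=
      (tendsto_pow_atTop_nhds_zero_of_lt_one (by norm_num) (by norm_num)).mul_const M
    have h2 : Tendsto (fun n : ℕ => σ ^ n * r₀) atTop (𝓝 (0 * r₀)) :=
      (tendsto_pow_atTop_nhds_zero_of_lt_one hσ.le hσ1).mul_const r₀
    rw [zero_mul] at h1 h2
    have h3 := (h1.eventually (ge_mem_nhds hθ')).and (h2.eventually (ge_mem_nhds one_pos))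
    exact eventually_atTop.1 h3
  refine ⟨N, ?_⟩
  intro T G u p h t₀ x₀ ht₀ hr₀t
  refine ⟨?_, ?_⟩
  · intro hsing n hn
    by_contra hcount
    rw [not_lt] at hcount
    have hD : 0 ≤ D := (setIntegral_nonneg h.openG.measurableSet fun t _ => enst_nn _).trans
      h.enst_le
    obtain ⟨hN1, hN2⟩ := hN n hn
    have hLS : LS G t₀ x₀ r₀ u p := ls_turb h ht₀ hr₀ hr₀t x₀
    have hmono : Nat.count (fun k => ¬ Influx 1 κ μ σ (θ / C) (eta κ μ σ Cq) G t₀ x₀ u p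
        (σ ^ k * r₀)) n ≤ Nat.count (fun k => GE G t₀ x₀ u p κ μ σ θ (σ ^ k * r₀)) n := by
      apply Nat.count_mono_left
      intro k _ hk
      have hk1 : σ ^ k * r₀ ≤ r₀ := mul_le_of_le_one_left hr₀.le (pow_le_one₀ hσ.le hσ1.le)
      have hk2 : (σ ^ k * r₀) ^ 2 ≤ r₀ ^ 2 := pow_le_pow_left₀ (by positivity) hk1 2
      exact hgg T E D G u p h t₀ x₀ θ (σ ^ k * r₀) (by positivity) (hk1.trans hr₀1)
        hθ ht₀ (hk2.trans hr₀t) hsing hk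
    have hsplit := count_split
      (fun k => Influx 1 κ μ σ (θ / C) (eta κ μ σ Cq) G t₀ x₀ u p (σ ^ k * r₀)) n
    have hgoodc : q * n
        ≤ (Nat.count (fun k => GE G t₀ x₀ u p κ μ σ θ (σ ^ k * r₀)) n : ℝ) := by
      have h1 : (Nat.count (fun k => Influx 1 κ μ σ (θ / C) (eta κ μ σ Cq) G t₀ x₀ u p
          (σ ^ k * r₀)) n : ℝ) + (Nat.count (fun k => ¬ Influx 1 κ μ σ (θ / C) (eta κ μ σ Cq)
            G t₀ x₀ u p (σ ^ k * r₀)) n : ℝ) = n := by exact_mod_cast hsplit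
      have h2 : (Nat.count (fun k => ¬ Influx 1 κ μ σ (θ / C) (eta κ μ σ Cq) G t₀ x₀ u p
          (σ ^ k * r₀)) n : ℝ)
          ≤ (Nat.count (fun k => GE G t₀ x₀ u p κ μ σ θ (σ ^ k * r₀)) n : ℝ) :=
        Nat.cast_le.2 hmono
      linarith
    have hM0 : 0 < M := by rw [hM]; positivity
    have hPA := hit G t₀ x₀ r₀ u p hLS r₀ M hr₀ le_rfl hM0 (by
        rw [hM]
        exact hA T E D G u p h t₀ x₀) n (by
        have h1 : (1 + (q * (1 + κ) - 1)) * (n : ℝ) = (1 + κ) * (q * n) := by ring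
        rw [h1]
        exact mul_le_mul_of_nonneg_left hgoodc (by linarith))
    have hρ : 0 < σ ^ n * r₀ := by positivity
    refine hreg T E D G u p h t₀ x₀ (σ ^ n * r₀) hρ hN2 ht₀ ?_ (PA_mono hρ hN1 hPA) hsing
    have h1 : (σ ^ n * r₀) ^ 2 ≤ r₀ ^ 2 := by
      apply pow_le_pow_left₀ hρ.le
      exact mul_le_of_le_one_left hr₀.le (pow_le_one₀ hσ.le hσ1.le)
    linarith
  · intro hns
    obtain ⟨ρ₁, hρ₁, hno⟩ := no_influx hκ hκ1 hμ hμ1 hσ hσ32 hσμ hCq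
      (ε := θ / C) (by positivity) h hr₀ hr₀1 ht₀ hr₀t hns
    have h2 : Tendsto (fun n : ℕ => σ ^ n * r₀) atTop (𝓝 (0 * r₀)) :=
      (tendsto_pow_atTop_nhds_zero_of_lt_one hσ.le hσ1).mul_const r₀
    rw [zero_mul] at h2
    obtain ⟨K, hK⟩ := eventually_atTop.1 (h2.eventually (gt_mem_nhds hρ₁))
    exact ⟨K, fun k hk => hno _ (by positivity) (hK k hk)⟩

/-- The influx for viscosity `ν` gives the influx for viscosity one. -/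
lemma Influx_sc2 {ν : ℝ} (hν : 0 < ν) {κ μ c ε : ℝ} {η : ℝ → ℝ → ℝ} {G : Set ℝ} (hG : IsOpen G)
    {t₀ : ℝ} {x₀ : V} {u : ℝ → V → V} {p : ℝ → V → ℝ} {r : ℝ}
    (h : Influx ν κ μ c ε η G t₀ x₀ u p r) :
    Influx 1 κ μ c ε η {t | t / ν ∈ G} (ν * t₀) x₀ (fun t x => ν⁻¹ • u (t / ν) x)
      (fun t x => (ν ^ 2)⁻¹ * p (t / ν) x) r := by
  intro ψ' hF'
  obtain ⟨ψ, hψ⟩ : ∃ ψ : ℝ → V → ℝ, ψ = fun t x => ψ' (ν * t) x := ⟨_, rfl⟩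
  have hback : (fun t x => ψ (t / ν) x) = ψ' := by
    rw [hψ]
    funext t x
    have : ν * (t / ν) = t := by field_simp
    simp only [this]
  have hw : ∀ t, t < t₀ → ν * (t₀ - t) < r ^ 2 →
      ν * t < ν * t₀ ∧ 1 * (ν * t₀ - ν * t) < r ^ 2 := by
    intro t h1 h2
    refine ⟨mul_lt_mul_of_pos_left h1 hν, ?_⟩
    linarith
  have hF : FoN ν κ μ c r t₀ x₀ ψ := by
    rw [hψ]
    refine ⟨?_, ?_, ?_, ?_, ?_⟩
    · exact hF'.smooth.comp ((contDiff_const.mul contDiff_fst).prodMk contDiff_snd)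
    · intro t h1 h2
      exact hF'.center _ (hw t h1 h2).1 (hw t h1 h2).2
    · intro t h1 h2
      exact hF'.low _ (hw t h1 h2).1 (hw t h1 h2).2
    · intro t h1 h2
      exact hF'.grad _ (hw t h1 h2).1 (hw t h1 h2).2
    · intro t h1 h2
      exact hF'.conv _ (hw t h1 h2).1 (hw t h1 h2).2
  obtain ⟨t, ht, hlt⟩ := h ψ hF
  have h2 := nFlux_sc hν η hG t₀ x₀ u p r ψ t
  rw [hback] at h2
  refine ⟨ν * t, ?_, ?_⟩
  · rw [Wv_scale hν]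
    show ν * t / ν ∈ Wv ν G t₀ (c * r)
    rwa [mul_div_cancel_left₀ _ hν.ne']
  · rw [h2, Eb_sc hν hG]
    have h3 := mul_lt_mul_of_pos_left hlt (show 0 < (ν ^ 2)⁻¹ by positivity)
    refine lt_of_lt_of_le h3 (le_of_eq ?_)
    ring

lemma sing_sc2 {ν : ℝ} (hν : 0 < ν) {G : Set ℝ} {t₀ : ℝ} {x₀ : V} {u : ℝ → V → V}
    (h : SingPt {t | t / ν ∈ G} (fun t x => ν⁻¹ • u (t / ν) x) (ν * t₀) x₀) :
    SingPt G u t₀ x₀ := by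
  intro δ hδ B
  obtain ⟨s, hs, h1, y, hy, h2⟩ := h (min δ (ν * δ)) (lt_min hδ (by positivity)) (ν⁻¹ * B)
  refine ⟨s / ν, hs, ?_, y, ball_subset_ball (min_le_left _ _) hy, ?_⟩
  · have e : s / ν - t₀ = (s - ν * t₀) / ν := by field_simp
    rw [e, abs_div, abs_of_pos hν, div_lt_iff₀ hν, mul_comm δ ν]
    exact h1.trans_le (min_le_right _ _)
  · rw [norm_smul, Real.norm_eq_abs, abs_of_pos (inv_pos.2 hν)] at h2
    exact lt_of_mul_lt_mul_left h2 (inv_pos.2 hν).le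

open Classical in
/-- The theorem for every viscosity. -/
theorem dich {κ μ q : ℝ} (hκ : 0 < κ) (hκ1 : κ ≤ 2) (hμ : 0 < μ) (hμ1 : μ ≤ 1)
    (hq : 1 < q * (1 + κ)) :
    ∃ (c ε : ℝ) (η : ℝ → ℝ → ℝ), 0 < c ∧ c < 1 ∧ 0 < ε ∧ Profile (μ / 64) η ∧
      ∀ ν E D r₀ : ℝ, 0 < ν → 0 < r₀ → r₀ ≤ 1 → ∃ N : ℕ,
      ∀ (T : ℝ) (G : Set ℝ) (u : ℝ → V → V) (p : ℝ → V → ℝ), Turb ν T E D G u p →
        ∀ (t₀ : ℝ) (x₀ : V), t₀ ≤ T → r₀ ^ 2 ≤ ν * t₀ →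
          (SingPt G u t₀ x₀ → ∀ n : ℕ, N ≤ n →
            (1 - q) * n < Nat.count (fun k => Influx ν κ μ c ε η G t₀ x₀ u p (c ^ k * r₀)) n) ∧
          (¬ SingPt G u t₀ x₀ →
            ∃ M : ℕ, ∀ k : ℕ, M ≤ k → ¬ Influx ν κ μ c ε η G t₀ x₀ u p (c ^ k * r₀)) := by
  obtain ⟨c, ε, η, hc, hc1, hε, hη, hm⟩ := dich_one hκ hκ1 hμ hμ1 hq
  refine ⟨c, ε, η, hc, hc1, hε, hη, ?_⟩
  intro ν E D r₀ hν hr₀ hr₀1
  obtain ⟨N, hN⟩ := hm (E / ν) (D / ν) r₀ hr₀ hr₀1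
  refine ⟨N, ?_⟩
  intro T G u p h t₀ x₀ ht hr
  obtain ⟨h1, h2⟩ := Pool.Agent.Y96.NS.t_WSCAL ν T E D G u p hν h
  obtain ⟨h3, h4⟩ := hN (ν * T) _ _ _ h1 (ν * t₀) x₀ (mul_le_mul_of_nonneg_left ht hν.le) hr
  refine ⟨fun hsing n hn => ?_, fun hns => ?_⟩
  · refine (h3 (h2 t₀ x₀ hsing) n hn).trans_le (Nat.cast_le.2 (Nat.count_mono_left ?_))
    intro k _ hk
    by_contra hcon
    exact Influx_sc hν h.openG hcon hk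
  · obtain ⟨M, hM⟩ := h4 fun hs => hns (sing_sc2 hν hs)
    exact ⟨M, fun k hk hI => hM k hk (Influx_sc2 hν h.openG hI)⟩

end Pool.Agent.N982.EM
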