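import Pool.Agent.N982.EM.StepE
import Pool.Agent.N982.MC.Iter

/-!
The iteration: a positive proportion of good scales.
-/

set_option autoImplicit false

open MeasureTheory Set Metric Filter Topology
open scoped ContDiff

namespace Pool.Agent.N982.EM

open H459R3.NS W221.NS Pool.Agent.Y8 Pool.Agent.N982.MC

/-- The bound of the exponential factor. -/
lemma e1_le {κ σ : ℝ} (hκ1 : κ ≤ 2) (hσ : 0 < σ) :
    Real.exp ((1 + κ) * Real.log (3 * σ ^ 2) / 2) ≤ 6 * (σ * σ ^ κ) := by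
  have h1 : Real.log (3 * σ ^ 2) = Real.log 3 + 2 * Real.log σ := by
    rw [Real.log_mul (by norm_num) (by positivity), Real.log_pow]
    norm_num
  have h2 : (1 + κ) * Real.log (3 * σ ^ 2) / 2
      = (1 + κ) / 2 * Real.log 3 + (Real.log σ + κ * Real.log σ) := by
    rw [h1]
    ring
  rw [h2, Real.exp_add, Real.exp_add, Real.exp_log hσ]
  have h3 : Real.exp (κ * Real.log σ) = σ ^ κ := by
    rw [Real.rpow_def_of_pos hσ, mul_comm]
  rw [h3]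
  refine mul_le_mul_of_nonneg_right ?_ (by positivity)
  have h4 : Real.exp ((1 + κ) / 2 * Real.log 3) ≤ Real.exp (3 / 2 * Real.log 3) := by
    apply Real.exp_le_exp.2
    apply mul_le_mul_of_nonneg_right _ (Real.log_nonneg (by norm_num))
    linarith
  refine h4.trans ?_
  have h5 : Real.exp (3 / 2 * Real.log 3) = (3 : ℝ) ^ (3 / 2 : ℝ) := by
    rw [Real.rpow_def_of_pos (by norm_num : (0 : ℝ) < 3), mul_comm]
  rw [h5]
  have h6 : ((3 : ℝ) ^ (3 / 2 : ℝ)) ^ 2 ≤ (6 : ℝ) ^ 2 := by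
    rw [← Real.rpow_natCast, ← Real.rpow_mul (by norm_num)]
    norm_num
  exact le_of_pow_le_pow_left₀ (by norm_num) (by norm_num) h6

/-- One step, at a good and at a bad scale. -/
theorem two_steps {κ μ : ℝ} (hκ : 0 < κ) (hκ1 : κ ≤ 2) (hμ : 0 < μ) :
    ∃ C : ℝ, 1 ≤ C ∧ ∀ σ : ℝ, 0 < σ → σ ≤ 1 / 64 →
      24 * σ ^ 2 ≤ μ / 64 → ∃ θ : ℝ, 0 < θ ∧
    ∀ (G : Set ℝ) (t₀ : ℝ) (x₀ : V) (R : ℝ) (u : ℝ → V → V) (p : ℝ → V → ℝ),
      LS G t₀ x₀ R u p → ∀ ρ a : ℝ, 0 < ρ → ρ ≤ R → 0 < a → PA G t₀ x₀ u ρ a →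
        PA G t₀ x₀ u (σ * ρ) (C * σ⁻¹ * a) ∧
        (HE G t₀ x₀ u p κ μ σ θ ρ a → PA G t₀ x₀ u (σ * ρ) (C * σ ^ κ * a)) := by
  obtain ⟨C₀, hC₀, hE⟩ := Pool.Agent.N982.EM.stepE hκ (by linarith) hμ
  refine ⟨6 * C₀ + 1, by linarith, ?_⟩
  intro σ hσ hσ1 hσ2
  obtain ⟨C₁, hC₁, hE⟩ := hE σ hσ hσ1 hσ2
  obtain ⟨k, hk⟩ : ∃ k, k = σ ^ κ := ⟨_, rfl⟩
  have hk0 : 0 < k := by rw [hk]; positivity
  obtain ⟨θ, hθ⟩ : ∃ θ, θ = k / C₁ := ⟨_, rfl⟩
  have hθ0 : 0 < θ := by rw [hθ]; positivity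
  have hθC : C₁ * θ = k := by rw [hθ]; field_simp
  refine ⟨θ, hθ0, ?_⟩
  intro G t₀ x₀ R u p hLS ρ a hρ hρR ha hA
  have hsi : 0 < σ⁻¹ := inv_pos.2 hσ
  have hsub : Wn G t₀ (σ * ρ) ⊆ Wn G t₀ ρ := Wn_mono (by positivity) (by nlinarith)
  constructor
  · have h0 : PA G t₀ x₀ u (σ * ρ) (σ⁻¹ * a) := by
      have hus : ∀ t ∈ Wn G t₀ (σ * ρ), ContDiff ℝ ∞ (u t) := fun t ht =>
        sl_sm hLS.smooth_u ht.1
      have hbs : ball x₀ (σ * ρ) ⊆ ball x₀ ρ := ball_subset_ball (by nlinarith)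
      have e : σ * ρ * (σ⁻¹ * a) = ρ * a := by field_simp
      have hBi : IntegrableOn (fun t => B2 x₀ (σ * ρ) (u t)) (Wn G t₀ (σ * ρ)) := by
        refine Integrable.mono' (hA.2.1.mono_set hsub) ?_ ?_
        · have h1 : ContinuousOn (fun t => B2 x₀ (σ * ρ) (u t)) G :=
            pint_cont hLS.openG (gsq_joint hLS.openG hLS.smooth_u).continuousOn x₀ (σ * ρ)
          exact (h1.mono inter_subset_left).aestronglyMeasurable
            (Wn_open hLS.openG _).measurableSet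
        · rw [ae_restrict_iff' (Wn_open hLS.openG _).measurableSet]
          refine ae_of_all _ fun t ht => ?_
          rw [Real.norm_eq_abs, abs_of_nonneg (B2_nn _ _ _)]
          exact B2_mn (hus t ht) hbs
      refine ⟨fun t ht => ?_, hBi, ?_⟩
      · rw [e]
        exact (A2_mn (hus t ht) hbs).trans (hA.1 t (hsub ht))
      · rw [e]
        calc ∫ t in Wn G t₀ (σ * ρ), B2 x₀ (σ * ρ) (u t)
            ≤ ∫ t in Wn G t₀ (σ * ρ), B2 x₀ ρ (u t) :=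
              setIntegral_mono_on hBi (hA.2.1.mono_set hsub)
                (Wn_open hLS.openG _).measurableSet fun t ht => B2_mn (hus t ht) hbs
          _ ≤ ∫ t in Wn G t₀ ρ, B2 x₀ ρ (u t) :=
              setIntegral_mono_set hA.2.1 (ae_of_all _ fun t => B2_nn _ _ _)
                hsub.eventuallyLE
          _ ≤ ρ * a := hA.2.2
    refine PA_mono (by positivity) ?_ h0
    have h1 : 0 ≤ C₀ * (σ⁻¹ * a) := by positivity
    linarith
  · intro hHF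
    have hA' := hE G t₀ x₀ R u p hLS ρ a θ a hρ hρR ha hθ0 ha hA hHF
    refine PA_mono (by positivity) ?_ hA'
    have he1 := Pool.Agent.N982.EM.e1_le hκ1 hσ
    rw [← hk] at he1 ⊢
    have hee : C₀ * Real.exp ((1 + κ) * Real.log (3 * σ ^ 2) / 2) / σ * a ≤ 6 * C₀ * k * a := by
      apply mul_le_mul_of_nonneg_right _ ha.le
      rw [div_le_iff₀ hσ]
      calc C₀ * Real.exp ((1 + κ) * Real.log (3 * σ ^ 2) / 2) ≤ C₀ * (6 * (σ * k)) :=
            mul_le_mul_of_nonneg_left he1 hC₀.le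
        _ = _ := by ring
    rw [hθC]
    linarith

/-- A good scale. -/
def GE (G : Set ℝ) (t₀ : ℝ) (x₀ : V) (u : ℝ → V → V) (p : ℝ → V → ℝ) (κ μ c θ ρ : ℝ) : Prop :=
  ∀ a : ℝ, 0 < a → PA G t₀ x₀ u ρ a → HE G t₀ x₀ u p κ μ c θ ρ a

open Classical in
/-- The iteration over all scales. -/
theorem iter_all {κ μ : ℝ} (hκ : 0 < κ) (hκ1 : κ ≤ 2) (hμ : 0 < μ) {δ : ℝ} (hδ : 0 < δ) :
    ∃ σ θ : ℝ, 0 < σ ∧ σ < 1 ∧ 0 < θ ∧ σ ^ 2 ≤ 1 / 32 ∧ σ ^ 2 ≤ μ / 64 ∧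
    ∀ (G : Set ℝ) (t₀ : ℝ) (x₀ : V) (R : ℝ) (u : ℝ → V → V) (p : ℝ → V → ℝ),
      LS G t₀ x₀ R u p → ∀ ρ a : ℝ, 0 < ρ → ρ ≤ R → 0 < a → PA G t₀ x₀ u ρ a → ∀ n : ℕ,
        (1 + δ) * n ≤ (1 + κ) * Nat.count (fun k => GE G t₀ x₀ u p κ μ σ θ (σ ^ k * ρ)) n →
          PA G t₀ x₀ u (σ ^ n * ρ) ((1 / 2) ^ n * a) := by
  obtain ⟨C, hC, hst⟩ := Pool.Agent.N982.EM.two_steps hκ hκ1 hμ
  obtain ⟨σ, hσ, hσa, hσ1, hσC⟩ := ex_sig (C := C) (δ := δ) (a := min (1 / 64) (√μ / 64))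
    (by linarith) hδ (by have := Real.sqrt_pos.2 hμ; positivity)
  have hσ64 : σ ≤ 1 / 64 := hσa.trans (min_le_left _ _)
  have hσμ : 24 * σ ^ 2 ≤ μ / 64 := by
    have h1 : σ ≤ √μ / 64 := hσa.trans (min_le_right _ _)
    have h2 := pow_le_pow_left₀ hσ.le h1 2
    rw [div_pow, Real.sq_sqrt hμ.le] at h2
    linarith
  obtain ⟨θ, hθ, hst⟩ := hst σ hσ hσ64 hσμ
  refine ⟨σ, θ, hσ, hσ1, hθ, by nlinarith, by nlinarith [sq_nonneg σ], ?_⟩
  intro G t₀ x₀ R u p hLS ρ a hρ hρR ha hA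
  obtain ⟨c, hc⟩ : ∃ c : ℕ → ℕ, c = Nat.count
    (fun k => GE G t₀ x₀ u p κ μ σ θ (σ ^ k * ρ)) := ⟨_, rfl⟩
  rw [← hc]
  have key : ∀ n : ℕ,
      PA G t₀ x₀ u (σ ^ n * ρ) (C ^ n * σ ^ ((1 + κ) * c n - n) * a) := by
    intro n
    induction n with
    | zero =>
      rw [hc]
      simpa using hA
    | succ n ih =>
      have hρn : 0 < σ ^ n * ρ := by positivity
      have hρnR : σ ^ n * ρ ≤ R := by
        have : σ ^ n ≤ 1 := pow_le_one₀ hσ.le hσ1.le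
        nlinarith
      have ha' : 0 < C ^ n * σ ^ ((1 + κ) * (c n : ℝ) - (n : ℝ)) * a := by
        have : 0 < C := by linarith
        positivity
      obtain ⟨hb, hg⟩ := hst G t₀ x₀ R u p hLS (σ ^ n * ρ) _ hρn hρnR ha' ih
      have e0 : σ ^ (n + 1) * ρ = σ * (σ ^ n * ρ) := by ring
      rw [e0]
      have hcs : c (n + 1) = c n + if GE G t₀ x₀ u p κ μ σ θ (σ ^ n * ρ) then 1 else 0 := by
        rw [hc]
        exact Nat.count_succ _ n
      by_cases hgood : GE G t₀ x₀ u p κ μ σ θ (σ ^ n * ρ)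
      · rw [if_pos hgood] at hcs
        have h1 := hg (hgood _ ha' ih)
        have e1 : σ ^ ((1 + κ) * (c (n + 1) : ℝ) - ((n + 1 : ℕ) : ℝ))
            = σ ^ κ * σ ^ ((1 + κ) * (c n : ℝ) - (n : ℝ)) := by
          rw [← Real.rpow_add hσ]
          congr 1
          rw [hcs]
          push_cast
          ring
        rw [e1]
        refine PA_mono (by positivity) (le_of_eq ?_) h1
        ring
      · rw [if_neg hgood, add_zero] at hcs
        have e1 : σ ^ ((1 + κ) * (c (n + 1) : ℝ) - ((n + 1 : ℕ) : ℝ))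
            = σ⁻¹ * σ ^ ((1 + κ) * (c n : ℝ) - (n : ℝ)) := by
          rw [← Real.rpow_neg_one, ← Real.rpow_add hσ]
          congr 1
          rw [hcs]
          push_cast
          ring
        rw [e1]
        refine PA_mono (by positivity) (le_of_eq ?_) hb
        ring
  intro n hn
  refine PA_mono (by positivity) ?_ (key n)
  have h2 : σ ^ ((1 + κ) * (c n : ℝ) - (n : ℝ)) ≤ σ ^ (δ * (n : ℝ)) := by
    apply Real.rpow_le_rpow_of_exponent_ge hσ hσ1.le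
    linarith
  have h3 : C ^ n * σ ^ (δ * (n : ℝ)) = (C * σ ^ δ) ^ n := by
    rw [Real.rpow_mul hσ.le, Real.rpow_natCast, mul_pow]
  have h4 : (C * σ ^ δ) ^ n ≤ (1 / 2) ^ n :=
    pow_le_pow_left₀ (by positivity) hσC n
  calc C ^ n * σ ^ ((1 + κ) * (c n : ℝ) - (n : ℝ)) * a
      ≤ C ^ n * σ ^ (δ * (n : ℝ)) * a := by
        apply mul_le_mul_of_nonneg_right _ ha.le
        exact mul_le_mul_of_nonneg_left h2 (by positivity)
    _ ≤ _ := by
        rw [h3]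
        exact mul_le_mul_of_nonneg_right h4 ha.le

end Pool.Agent.N982.EM
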