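import Pool.Agent.N982.EM.Iter
import Pool.Agent.N982.MC.Main

/-!
The theorem for viscosity one.
-/

set_option autoImplicit false

open MeasureTheory Set Metric Filter Topology
open scoped ContDiff

namespace Pool.Agent.N982.EM

open H459R3.NS W221.NS Pool.Agent.Y8 Pool.Agent.N982.MC

/-- The energy content is not small at the scales of a singular point. -/
theorem En_low : ∃ θ : ℝ, 0 < θ ∧ ∀ (T E D : ℝ) (G : Set ℝ) (u : ℝ → V → V) (p : ℝ → V → ℝ),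
    Turb 1 T E D G u p → ∀ (t₀ : ℝ) (x₀ : V) (ρ : ℝ), 0 < ρ → ρ ≤ 1 → t₀ ≤ T → ρ ^ 2 ≤ t₀ →
      SingPt G u t₀ x₀ → ρ * θ ≤ sSup ((fun t => A2 x₀ ρ (u t)) '' Wn G t₀ ρ)
        + ∫ t in Wn G t₀ ρ, B2 x₀ ρ (u t) := by
  obtain ⟨θ, hθ, hreg⟩ := reg_pt
  refine ⟨θ, hθ, ?_⟩
  intro T E D G u p h t₀ x₀ ρ hρ hρ1 ht hρt hsing
  by_contra hcon
  rw [not_le] at hcon
  refine hreg T E D G u p h t₀ x₀ ρ hρ hρ1 ht hρt ?_ hsing
  obtain ⟨C₁, hC₁, hA⟩ := start_A ρ hρ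
  obtain ⟨hA1, hA2, -⟩ := hA T E D G u p h t₀ x₀
  have hbdd : BddAbove ((fun t => A2 x₀ ρ (u t)) '' Wn G t₀ ρ) := by
    refine ⟨ρ * (C₁ * (E ^ 2 + D + 1)), ?_⟩
    rintro _ ⟨t, ht, rfl⟩
    exact hA1 t ht
  have h0 : 0 ≤ sSup ((fun t => A2 x₀ ρ (u t)) '' Wn G t₀ ρ) := by
    refine Real.sSup_nonneg ?_
    rintro _ ⟨t, -, rfl⟩
    exact A2_nn _ _ _
  have h1 : 0 ≤ ∫ t in Wn G t₀ ρ, B2 x₀ ρ (u t) := integral_nonneg fun t => B2_nn _ _ _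
  refine ⟨fun t ht => ?_, hA2, by linarith⟩
  have h3 := le_csSup hbdd ⟨t, ht, rfl⟩
  have h4 : A2 x₀ ρ (u t) ≤ sSup ((fun t => A2 x₀ ρ (u t)) '' Wn G t₀ ρ) := h3
  linarith

lemma FoN_one {κ μ c r t₀ : ℝ} {x₀ : V} {ψ : ℝ → V → ℝ} (h : FoN 1 κ μ c r t₀ x₀ ψ) :
    Fo κ μ c r t₀ x₀ ψ where
  smooth := h.smooth
  center := fun t ht => h.center t ht.2 (by linarith [ht.1])
  low := fun t ht => h.low t ht.2 (by linarith [ht.1])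
  grad := fun t ht => h.grad t ht.2 (by linarith [ht.1])
  conv := fun t ht => h.conv t ht.2 (by linarith [ht.1])

/-- The profile. -/
noncomputable def eta (κ μ c Cq : ℝ) (τ s : ℝ) : ℝ := -Fq (1 + κ) (μ / 64) c τ s / Cq

lemma eta_profile {κ μ c Cq : ℝ} (hκ1 : κ ≤ 3) (hμ : 0 < μ) (hc0 : 0 < c) (hCq : 0 < Cq)
    (hq : ∀ α τ q : ℝ, α ≤ 4 → τ ≤ c ^ 2 → 0 ≤ q → -Cq ≤ Fq α (μ / 64) c τ q) :
    Profile (μ / 64) (eta κ μ c Cq) := by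
  have hc2 : 0 < c ^ 2 := by positivity
  refine ⟨?_, ?_, ?_, ?_, ?_⟩
  · unfold eta
    exact (((Fq_sm (1 + κ) (μ / 64) c).mono (prod_mono (fun τ hτ => by
      have h1 : τ < 0 := hτ
      rw [mem_Iio]
      linarith) subset_rfl)).neg).div_const _
  · intro τ s hτ hs
    refine div_nonneg ?_ hCq.le
    have := Fq_np (α := 1 + κ) (w := μ / 64) (σ := c) (τ := τ)
      (q := s) (by positivity) (by linarith)
    linarith
  · intro τ s hτ hs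
    unfold eta
    rw [div_le_one hCq]
    have := hq (1 + κ) τ s (by linarith) (by linarith) hs
    linarith
  · intro τ s hs
    unfold eta
    rw [Fq_supp (by positivity) hs, neg_zero, zero_div]
  · intro τ s hτ
    unfold eta Fq
    have h2 : sT (32 * τ + 2) = 0 := sT_zero (by linarith)
    rw [h2]
    simp

/-- A scale without influx is good for the iteration. -/
theorem good_ge {κ μ : ℝ} (hκ : 0 < κ) (hκ1 : κ ≤ 3) (hμ : 0 < μ) {c : ℝ}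
    (hc0 : 0 < c) (hc32 : c ^ 2 ≤ 1 / 32) (hcμ : c ^ 2 ≤ μ / 64) :
    ∃ (C : ℝ) (η : ℝ → ℝ → ℝ), 0 < C ∧ Profile (μ / 64) η ∧ ∀ (T E D : ℝ) (G : Set ℝ)
    (u : ℝ → V → V) (p : ℝ → V → ℝ), Turb 1 T E D G u p →
      ∀ (t₀ : ℝ) (x₀ : V) (θ ρ : ℝ), 0 < ρ → ρ ≤ 1 →
      0 < θ → t₀ ≤ T → ρ ^ 2 ≤ t₀ → SingPt G u t₀ x₀ →
        ¬ Influx 1 κ μ c (θ / C) η G t₀ x₀ u p ρ → GE G t₀ x₀ u p κ μ c θ ρ := by
  obtain ⟨Cq, hCq, hq⟩ := Fq_bd (w := μ / 64) (by positivity) hc0 hc32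
  obtain ⟨θ₀, hθ₀, hlow⟩ := Pool.Agent.N982.EM.En_low
  refine ⟨Cq * (2 * (1 + 1 / θ₀)), eta κ μ c Cq, by positivity,
    eta_profile hκ1 hμ hc0 hCq hq, ?_⟩
  intro T E D G u p h t₀ x₀ θ ρ hρ hρ1 hθ ht₀ hρt hsing hgood a ha hA
  unfold Influx at hgood
  push Not at hgood
  obtain ⟨ψ, hFN, hfl⟩ := hgood
  have hF := FoN_one hFN
  have hρ2 : 0 < ρ ^ 2 := by positivity
  refine ⟨ψ, hF, fun t ht => ?_⟩
  have h1 := hfl t (by rw [Wv_one]; exact ht)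
  have hflux : nFlux 1 (eta κ μ c Cq) G t₀ x₀ u p ρ ψ t
      = -(ρ ^ 2 / Cq) * ∫ s in Wn G t₀ ρ ∩ Iio t, PF (1 + κ) (μ / 64) c ρ t₀ ψ u p s := by
    unfold nFlux
    rw [Wv_one, ← integral_const_mul]
    refine setIntegral_congr_fun ((Wn_open h.openG ρ).inter isOpen_Iio).measurableSet
      fun s hs => ?_
    show ∫ x in ball x₀ ρ, eta κ μ c Cq (1 * (s - t₀) / ρ ^ 2) (ψ s x / ρ ^ 2) * ef u p ψ s x
      = -(ρ ^ 2 / Cq) * PF (1 + κ) (μ / 64) c ρ t₀ ψ u p s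
    have e1 : PF (1 + κ) (μ / 64) c ρ t₀ ψ u p s = ∫ x in ball x₀ ρ,
        1 / ρ ^ 2 * Fq (1 + κ) (μ / 64) c ((s - t₀) / ρ ^ 2) (ψ s x / ρ ^ 2)
          * ef u p ψ s x := by
      unfold PF
      rw [ball_int_eq]
      intro x hx
      have h1 : x ∉ ball x₀ (ρ / 4) := fun h => hx (ball_subset_ball (by linarith) h)
      have h2 : Fq (1 + κ) (μ / 64) c ((s - t₀) / ρ ^ 2) (ψ s x / ρ ^ 2) = 0 := by
        refine Fq_supp (by positivity) ?_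
        rw [le_div_iff₀ hρ2]
        exact hF.out hμ hρ hcμ hs.1.2 h1
      rw [h2]
      ring
    rw [e1, ← integral_const_mul]
    refine setIntegral_congr_fun measurableSet_ball fun x hx => ?_
    show eta κ μ c Cq (1 * (s - t₀) / ρ ^ 2) (ψ s x / ρ ^ 2) * ef u p ψ s x
      = -(ρ ^ 2 / Cq) * (1 / ρ ^ 2
        * Fq (1 + κ) (μ / 64) c ((s - t₀) / ρ ^ 2) (ψ s x / ρ ^ 2) * ef u p ψ s x)
    unfold eta
    rw [one_mul]
    field_simp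
  rw [hflux] at h1
  obtain ⟨I, hI⟩ : ∃ I, I = ∫ s in Wn G t₀ ρ ∩ Iio t,
    PF (1 + κ) (μ / 64) c ρ t₀ ψ u p s := ⟨_, rfl⟩
  rw [← hI] at h1 ⊢
  have h0 := hlow T E D G u p h t₀ x₀ ρ hρ hρ1 ht₀ hρt hsing
  unfold Eb at h1
  rw [Wv_one] at h1
  have hs : sSup ((fun t => A2 x₀ ρ (u t)) '' Wn G t₀ ρ) ≤ ρ * a := by
    refine Real.sSup_le ?_ (by positivity)
    rintro _ ⟨t, ht, rfl⟩
    exact hA.1 t ht
  have hB := hA.2.2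
  obtain ⟨s, hsd⟩ : ∃ s, s = sSup ((fun t => A2 x₀ ρ (u t)) '' Wn G t₀ ρ) := ⟨_, rfl⟩
  obtain ⟨b, hb⟩ : ∃ b, b = ∫ t in Wn G t₀ ρ, B2 x₀ ρ (u t) := ⟨_, rfl⟩
  rw [← hsd, ← hb] at h0 h1
  rw [← hsd] at hs
  rw [← hb] at hB
  have h5 : 1 ^ 2 * ρ + s + 1 * b ≤ 2 * (1 + 1 / θ₀) * (ρ * a) := by
    have e : ρ ≤ 1 / θ₀ * (s + b) := by
      rw [one_div, ← div_eq_inv_mul, le_div_iff₀ hθ₀]
      exact h0
    have e2 : 1 / θ₀ * (s + b) ≤ 1 / θ₀ * (2 * (ρ * a)) :=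
      mul_le_mul_of_nonneg_left (by linarith) (by positivity)
    calc 1 ^ 2 * ρ + s + 1 * b ≤ 1 / θ₀ * (2 * (ρ * a)) + 2 * (ρ * a) := by linarith
      _ = _ := by ring
  have h6 : ρ ^ 2 / Cq * I ≤ θ / (Cq * (2 * (1 + 1 / θ₀))) * ρ ^ 2
      * (1 ^ 2 * ρ + s + 1 * b) := by
    linarith
  have h7 : I ≤ Cq / ρ ^ 2 * (θ / (Cq * (2 * (1 + 1 / θ₀))) * ρ ^ 2
      * (1 ^ 2 * ρ + s + 1 * b)) := by
    have := mul_le_mul_of_nonneg_left h6 (show 0 ≤ Cq / ρ ^ 2 by positivity)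
    refine le_trans (le_of_eq ?_) this
    field_simp
  refine h7.trans ?_
  calc Cq / ρ ^ 2 * (θ / (Cq * (2 * (1 + 1 / θ₀))) * ρ ^ 2 * (1 ^ 2 * ρ + s + 1 * b))
      ≤ Cq / ρ ^ 2 * (θ / (Cq * (2 * (1 + 1 / θ₀))) * ρ ^ 2
        * (2 * (1 + 1 / θ₀) * (ρ * a))) := by
        apply mul_le_mul_of_nonneg_left _ (by positivity)
        exact mul_le_mul_of_nonneg_left h5 (by positivity)
    _ = θ * ρ * a := by
        field_simp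

open Classical in
lemma count_split (p : ℕ → Prop) (n : ℕ) :
    Nat.count p n + Nat.count (fun k => ¬ p k) n = n := by
  induction n with
  | zero => simp
  | succ n ih =>
    rw [Nat.count_succ, Nat.count_succ]
    by_cases h : p n
    · simp only [h, if_true, not_true_eq_false, if_false]; omega
    · simp only [h, if_false, not_false_eq_true, if_true]; omega

open Classical in
/-- The theorem for viscosity one. -/
theorem main_one {κ μ q : ℝ} (hκ : 0 < κ) (hκ1 : κ ≤ 2) (hμ : 0 < μ)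
    (hq : 1 < q * (1 + κ)) :
    ∃ (c ε : ℝ) (η : ℝ → ℝ → ℝ), 0 < c ∧ c < 1 ∧ 0 < ε ∧ Profile (μ / 64) η ∧
      ∀ E D r₀ : ℝ, 0 < r₀ → r₀ ≤ 1 → ∃ N : ℕ,
      ∀ (T : ℝ) (G : Set ℝ) (u : ℝ → V → V) (p : ℝ → V → ℝ), Turb 1 T E D G u p →
        ∀ (t₀ : ℝ) (x₀ : V), t₀ ≤ T → r₀ ^ 2 ≤ t₀ → SingPt G u t₀ x₀ → ∀ n : ℕ, N ≤ n →
          (1 - q) * n < Nat.count (fun k => Influx 1 κ μ c ε η G t₀ x₀ u p (c ^ k * r₀)) n := by
  obtain ⟨σ, θ, hσ, hσ1, hθ, hσ32, hσμ, hit⟩ := Pool.Agent.N982.EM.iter_all hκ hκ1 hμ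
    (δ := q * (1 + κ) - 1) (by linarith)
  obtain ⟨C, η, hC, hη, hgg⟩ := Pool.Agent.N982.EM.good_ge hκ (by linarith) hμ hσ hσ32 hσμ
  obtain ⟨θ', hθ', hreg⟩ := reg_pt
  refine ⟨σ, θ / C, η, hσ, hσ1, by positivity, hη, ?_⟩
  intro E D r₀ hr₀ hr₀1
  obtain ⟨C₁, hC₁, hA⟩ := start_A r₀ hr₀
  obtain ⟨M, hM⟩ : ∃ M, M = C₁ * (E ^ 2 + D + 1) := ⟨_, rfl⟩
  obtain ⟨N, hN⟩ : ∃ N : ℕ, ∀ n : ℕ, N ≤ n → (1 / 2 : ℝ) ^ n * M ≤ θ' ∧ σ ^ n * r₀ ≤ 1 := by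
    have h1 : Tendsto (fun n : ℕ => (1 / 2 : ℝ) ^ n * M) atTop (𝓝 (0 * M)) :=
      (tendsto_pow_atTop_nhds_zero_of_lt_one (by norm_num) (by norm_num)).mul_const M
    have h2 : Tendsto (fun n : ℕ => σ ^ n * r₀) atTop (𝓝 (0 * r₀)) :=
      (tendsto_pow_atTop_nhds_zero_of_lt_one hσ.le hσ1).mul_const r₀
    rw [zero_mul] at h1 h2
    have h3 := (h1.eventually (ge_mem_nhds hθ')).and (h2.eventually (ge_mem_nhds one_pos))
    exact eventually_atTop.1 h3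
  refine ⟨N, ?_⟩
  intro T G u p h t₀ x₀ ht₀ hr₀t hsing n hn
  by_contra hcount
  rw [not_lt] at hcount
  have hD : 0 ≤ D := (setIntegral_nonneg h.openG.measurableSet fun t _ => enst_nn _).trans
    h.enst_le
  obtain ⟨hN1, hN2⟩ := hN n hn
  have hLS : LS G t₀ x₀ r₀ u p := ls_turb h ht₀ hr₀ hr₀t x₀
  have hmono : Nat.count (fun k => ¬ Influx 1 κ μ σ (θ / C) η G t₀ x₀ u p
      (σ ^ k * r₀)) n ≤ Nat.count (fun k => GE G t₀ x₀ u p κ μ σ θ (σ ^ k * r₀)) n := by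
    apply Nat.count_mono_left
    intro k _ hk
    have hk1 : σ ^ k * r₀ ≤ r₀ := mul_le_of_le_one_left hr₀.le (pow_le_one₀ hσ.le hσ1.le)
    have hk2 : (σ ^ k * r₀) ^ 2 ≤ r₀ ^ 2 := pow_le_pow_left₀ (by positivity) hk1 2
    exact hgg T E D G u p h t₀ x₀ θ (σ ^ k * r₀) (by positivity) (hk1.trans hr₀1)
      hθ ht₀ (hk2.trans hr₀t) hsing hk
  have hsplit := count_split (fun k => Influx 1 κ μ σ (θ / C) η G t₀ x₀ u p (σ ^ k * r₀)) n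
  have hgoodc : q * n ≤ (Nat.count (fun k => GE G t₀ x₀ u p κ μ σ θ (σ ^ k * r₀)) n : ℝ) := by
    have h1 : (Nat.count (fun k => Influx 1 κ μ σ (θ / C) η G t₀ x₀ u p (σ ^ k * r₀)) n : ℝ)
        + (Nat.count (fun k => ¬ Influx 1 κ μ σ (θ / C) η G t₀ x₀ u p (σ ^ k * r₀)) n : ℝ)
        = n := by exact_mod_cast hsplit
    have h2 : (Nat.count (fun k => ¬ Influx 1 κ μ σ (θ / C) η G t₀ x₀ u p (σ ^ k * r₀)) n : ℝ)
        ≤ (Nat.count (fun k => GE G t₀ x₀ u p κ μ σ θ (σ ^ k * r₀)) n : ℝ) :=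
      Nat.cast_le.2 hmono
    linarith
  have hM0 : 0 < M := by rw [hM]; positivity
  have hPA := hit G t₀ x₀ r₀ u p hLS r₀ M hr₀ le_rfl hM0 (by
      rw [hM]
      exact hA T E D G u p h t₀ x₀) n (by
      have h1 : (1 + (q * (1 + κ) - 1)) * (n : ℝ) = (1 + κ) * (q * n) := by ring
      rw [h1]
      exact mul_le_mul_of_nonneg_left hgoodc (by linarith))
  have hρ : 0 < σ ^ n * r₀ := by positivity
  refine hreg T E D G u p h t₀ x₀ (σ ^ n * r₀) hρ hN2 ht₀ ?_ (PA_mono hρ hN1 hPA) hsing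
  have h1 : (σ ^ n * r₀) ^ 2 ≤ r₀ ^ 2 := by
    apply pow_le_pow_left₀ hρ.le
    exact mul_le_of_le_one_left hr₀.le (pow_le_one₀ hσ.le hσ1.le)
  linarith

end Pool.Agent.N982.EM
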