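import Pool.Agent.N982.EM.Main
import Pool.Agent.N982.MC.Ell

/-!
Scaling to viscosity one, and the example of spheres with moving centres.
-/

set_option autoImplicit false

open MeasureTheory Set Metric Filter Topology
open scoped ContDiff Pointwise

namespace Pool.Agent.N982.EM

open H459R3.NS W221.NS Pool.Agent.Y8 Pool.Agent.N982.MC

lemma dt_sc {ν : ℝ} (ψ : ℝ → V → ℝ) (t : ℝ) (x : V) :
    deriv (fun s => ψ (s / ν) x) t = ν⁻¹ * deriv (fun s => ψ s x) (t / ν) := by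
  have h5 : (fun s => ψ (s / ν) x) = fun s => (fun s => ψ s x) (ν⁻¹ * s) := by
    funext s
    rw [div_eq_inv_mul]
  have h6 := deriv_comp_mul_left ν⁻¹ (fun s => ψ s x) t
  rw [smul_eq_mul, ← div_eq_inv_mul t ν] at h6
  rw [h5]
  exact h6

lemma ef_sc {ν : ℝ} (hν : 0 < ν) (u : ℝ → V → V) (p : ℝ → V → ℝ) (ψ : ℝ → V → ℝ) (t : ℝ)
    (x : V) : ef (fun t x => ν⁻¹ • u (t / ν) x) (fun t x => (ν ^ 2)⁻¹ * p (t / ν) x)
      (fun t x => ψ (t / ν) x) t x = (ν ^ 3)⁻¹ * ef u p ψ (t / ν) x := by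
  have h := head_sc hν (ψ (t / ν)) (u (t / ν)) (p (t / ν)) 0 x
  rw [mul_zero, sub_zero, sub_zero] at h
  unfold ef
  rw [h, dt_sc, Pool.Agent.Y96.NS.nsq_sm]
  field_simp

lemma nFlux_sc {ν : ℝ} (hν : 0 < ν) (η : ℝ → ℝ → ℝ) {G : Set ℝ} (hG : IsOpen G) (t₀ : ℝ) (x₀ : V)
    (u : ℝ → V → V) (p : ℝ → V → ℝ) (r : ℝ) (ψ : ℝ → V → ℝ) (t : ℝ) :
    nFlux 1 η {t | t / ν ∈ G} (ν * t₀) x₀ (fun t x => ν⁻¹ • u (t / ν) x)
      (fun t x => (ν ^ 2)⁻¹ * p (t / ν) x) r (fun t x => ψ (t / ν) x) (ν * t)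
      = (ν ^ 2)⁻¹ * nFlux ν η G t₀ x₀ u p r ψ t := by
  have hWo := Wv_open (ν := ν) hG t₀ r
  obtain ⟨g, hg⟩ : ∃ g : ℝ → ℝ, g = fun s => ∫ x in ball x₀ r,
    η (ν * (s - t₀) / r ^ 2) (ψ s x / r ^ 2) * ef u p ψ s x := ⟨_, rfl⟩
  unfold nFlux
  have hset : Wv 1 {t | t / ν ∈ G} (ν * t₀) r ∩ Iio (ν * t)
      = {s | s / ν ∈ Wv ν G t₀ r ∩ Iio t} := by
    rw [Wv_scale hν]
    ext s
    have h1 : s < ν * t ↔ s / ν < t := by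
      rw [div_lt_iff₀ hν, mul_comm]
    constructor
    · rintro ⟨h2, h3⟩
      exact ⟨h2, h1.1 h3⟩
    · rintro ⟨h2, h3⟩
      exact ⟨h2, h1.2 h3⟩
  have e1 : ∀ s, ∫ x in ball x₀ r, η (1 * (s - ν * t₀) / r ^ 2) (ψ (s / ν) x / r ^ 2)
      * ef (fun t x => ν⁻¹ • u (t / ν) x) (fun t x => (ν ^ 2)⁻¹ * p (t / ν) x)
        (fun t x => ψ (t / ν) x) s x = (ν ^ 3)⁻¹ * g (s / ν) := by
    intro s
    rw [hg, ← integral_const_mul]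
    congr 1
    funext x
    have h1 : ν * (s / ν - t₀) = 1 * (s - ν * t₀) := by field_simp
    rw [ef_sc hν, h1]
    ring
  have e2 := Pool.Agent.Y96.NS.int_div hν (G := Wv ν G t₀ r ∩ Iio t) (hWo.inter isOpen_Iio) g
  rw [hset]
  calc ∫ s in {s | s / ν ∈ Wv ν G t₀ r ∩ Iio t}, ∫ x in ball x₀ r,
      η (1 * (s - ν * t₀) / r ^ 2) (ψ (s / ν) x / r ^ 2)
      * ef (fun t x => ν⁻¹ • u (t / ν) x) (fun t x => (ν ^ 2)⁻¹ * p (t / ν) x)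
        (fun t x => ψ (t / ν) x) s x
      = ∫ s in {s | s / ν ∈ Wv ν G t₀ r ∩ Iio t}, (ν ^ 3)⁻¹ * g (s / ν) := by simp_rw [e1]
    _ = (ν ^ 3)⁻¹ * (ν * ∫ s in Wv ν G t₀ r ∩ Iio t, g s) := by rw [integral_const_mul, e2]
    _ = (ν ^ 2)⁻¹ * ∫ s in Wv ν G t₀ r ∩ Iio t, g s := by field_simp
    _ = _ := by rw [hg]

lemma Eb_sc {ν : ℝ} (hν : 0 < ν) {G : Set ℝ} (hG : IsOpen G) (t₀ : ℝ) (x₀ : V)
    (u : ℝ → V → V) (r : ℝ) :
    Eb 1 {t | t / ν ∈ G} (ν * t₀) x₀ (fun t x => ν⁻¹ • u (t / ν) x) r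
      = (ν ^ 2)⁻¹ * Eb ν G t₀ x₀ u r := by
  have hWo := Wv_open (ν := ν) hG t₀ r
  unfold Eb
  rw [Wv_scale hν]
  have e1 : (fun t => A2 x₀ r (fun x => ν⁻¹ • u (t / ν) x)) '' {t | t / ν ∈ Wv ν G t₀ r}
      = (ν ^ 2)⁻¹ • ((fun t => A2 x₀ r (u t)) '' Wv ν G t₀ r) := by
    ext y
    rw [mem_smul_set]
    constructor
    · rintro ⟨t, ht, rfl⟩
      refine ⟨_, ⟨t / ν, ht, rfl⟩, ?_⟩
      simp only
      rw [A2_sc, smul_eq_mul, inv_pow]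
    · rintro ⟨_, ⟨t, ht, rfl⟩, rfl⟩
      refine ⟨ν * t, ?_, ?_⟩
      · show ν * t / ν ∈ Wv ν G t₀ r
        rwa [mul_div_cancel_left₀ _ hν.ne']
      · simp only
        rw [mul_div_cancel_left₀ _ hν.ne', A2_sc, smul_eq_mul, inv_pow]
  have e2 : ∫ t in {t | t / ν ∈ Wv ν G t₀ r}, B2 x₀ r (fun x => ν⁻¹ • u (t / ν) x)
      = (ν ^ 2)⁻¹ * (ν * ∫ t in Wv ν G t₀ r, B2 x₀ r (u t)) := by
    have h1 : ∀ t, B2 x₀ r (fun x => ν⁻¹ • u (t / ν) x) = (ν ^ 2)⁻¹ * B2 x₀ r (u (t / ν)) :=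
      fun t => by rw [B2_sc, inv_pow]
    simp_rw [h1]
    rw [integral_const_mul, Pool.Agent.Y96.NS.int_div hν hWo (fun t => B2 x₀ r (u t))]
  rw [e1, Real.sSup_smul_of_nonneg (by positivity), e2, smul_eq_mul]
  field_simp

/-- The influx for viscosity one gives the influx for viscosity `ν`. -/
lemma Influx_sc {ν : ℝ} (hν : 0 < ν) {κ μ c ε : ℝ} {η : ℝ → ℝ → ℝ} {G : Set ℝ} (hG : IsOpen G)
    {t₀ : ℝ} {x₀ : V} {u : ℝ → V → V} {p : ℝ → V → ℝ} {r : ℝ}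
    (h : ¬ Influx ν κ μ c ε η G t₀ x₀ u p r) :
    ¬ Influx 1 κ μ c ε η {t | t / ν ∈ G} (ν * t₀) x₀ (fun t x => ν⁻¹ • u (t / ν) x)
      (fun t x => (ν ^ 2)⁻¹ * p (t / ν) x) r := by
  unfold Influx at h ⊢
  push Not at h ⊢
  obtain ⟨ψ, hF, hfl⟩ := h
  have hF1 : FoN 1 κ μ c r (ν * t₀) x₀ (fun t x => ψ (t / ν) x) := by
    have hw : ∀ t, t < ν * t₀ → 1 * (ν * t₀ - t) < r ^ 2 →
        t / ν < t₀ ∧ ν * (t₀ - t / ν) < r ^ 2 := by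
      intro t h1 h2
      have e : ν * (t₀ - t / ν) = ν * t₀ - t := by field_simp
      rw [e]
      refine ⟨?_, by linarith⟩
      rw [div_lt_iff₀ hν]
      linarith
    refine ⟨?_, ?_, ?_, ?_, ?_⟩
    · exact hF.smooth.comp ((contDiff_fst.div_const ν).prodMk contDiff_snd)
    · intro t h1 h2
      exact hF.center _ (hw t h1 h2).1 (hw t h1 h2).2
    · intro t h1 h2
      exact hF.low _ (hw t h1 h2).1 (hw t h1 h2).2
    · intro t h1 h2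
      exact hF.grad _ (hw t h1 h2).1 (hw t h1 h2).2
    · intro t h1 h2
      exact hF.conv _ (hw t h1 h2).1 (hw t h1 h2).2
  refine ⟨_, hF1, fun t ht => ?_⟩
  rw [Wv_scale hν] at ht
  have h1 := hfl (t / ν) ht
  have h2 := nFlux_sc hν η hG t₀ x₀ u p r ψ (t / ν)
  have h3 : ν * (t / ν) = t := by field_simp
  rw [h3] at h2
  rw [h2, Eb_sc hν hG]
  have h4 := mul_le_mul_of_nonneg_left h1 (show 0 ≤ (ν ^ 2)⁻¹ by positivity)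
  refine le_trans (le_of_eq ?_) h4
  ring

open Classical in
/-- The theorem for every viscosity. -/
theorem main_nu {κ μ q : ℝ} (hκ : 0 < κ) (hκ1 : κ ≤ 2) (hμ : 0 < μ)
    (hq : 1 < q * (1 + κ)) :
    ∃ (c ε : ℝ) (η : ℝ → ℝ → ℝ), 0 < c ∧ c < 1 ∧ 0 < ε ∧ Profile (μ / 64) η ∧
      ∀ ν E D r₀ : ℝ, 0 < ν → 0 < r₀ → r₀ ≤ 1 → ∃ N : ℕ,
      ∀ (T : ℝ) (G : Set ℝ) (u : ℝ → V → V) (p : ℝ → V → ℝ), Turb ν T E D G u p →
        ∀ (t₀ : ℝ) (x₀ : V), t₀ ≤ T → r₀ ^ 2 ≤ ν * t₀ → SingPt G u t₀ x₀ → ∀ n : ℕ, N ≤ n →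
          (1 - q) * n < Nat.count (fun k => Influx ν κ μ c ε η G t₀ x₀ u p (c ^ k * r₀)) n := by
  obtain ⟨c, ε, η, hc, hc1, hε, hη, hm⟩ := Pool.Agent.N982.EM.main_one hκ hκ1 hμ hq
  refine ⟨c, ε, η, hc, hc1, hε, hη, ?_⟩
  intro ν E D r₀ hν hr₀ hr₀1
  obtain ⟨N, hN⟩ := hm (E / ν) (D / ν) r₀ hr₀ hr₀1
  refine ⟨N, ?_⟩
  intro T G u p h t₀ x₀ ht hr hsing n hn
  obtain ⟨h1, h2⟩ := Pool.Agent.Y96.NS.t_WSCAL ν T E D G u p hν h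
  have h3 := hN (ν * T) _ _ _ h1 (ν * t₀) x₀ (mul_le_mul_of_nonneg_left ht hν.le) hr
    (h2 t₀ x₀ hsing) n hn
  refine h3.trans_le (Nat.cast_le.2 (Nat.count_mono_left ?_))
  intro k _ hk
  by_contra hcon
  exact Influx_sc hν h.openG hcon hk

/-- Spheres with a moving centre `a(t)`. -/
theorem sphere {ν c r t₀ : ℝ} {x₀ : V} {a : ℝ → V} (ha : ContDiff ℝ ∞ a)
    (hc : ∀ t, t < t₀ → ν * (t₀ - t) < r ^ 2 → ∑ i, (x₀ i - a t i) ^ 2 ≤ (c * r) ^ 2) :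
    FoN ν 2 (1 / 2) c r t₀ x₀ (fun t x => ∑ i, (x i - a t i) ^ 2) := by
  have hQ : ∀ (b : V), (fun x : V => ∑ i, (x i - b i) ^ 2)
      = fun x => Qf (fun i j => if i = j then 1 else 0) (x - b) := by
    intro b
    funext x
    simp only [Qf, Mv, ite_mul, one_mul, zero_mul, Finset.sum_ite_eq, Finset.mem_univ, if_true,
      Pi.sub_apply]
    exact Finset.sum_congr rfl fun i _ => sq _
  have hs : ∀ i j : Fin 3, (fun i j : Fin 3 => if i = j then (1 : ℝ) else 0) i j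
      = (fun i j : Fin 3 => if i = j then (1 : ℝ) else 0) j i := fun i j => by
    simp only [eq_comm]
  refine ⟨?_, hc, ?_, ?_, ?_⟩
  · refine ContDiff.sum fun i _ => ContDiff.pow (ContDiff.sub ?_ ?_) 2
    · exact (contDiff_apply ℝ ℝ i).comp contDiff_snd
    · exact (contDiff_apply ℝ ℝ i).comp (ha.comp contDiff_fst)
  · intro t h1 h2 x
    have h3 := hc t h1 h2
    have h4 : ∑ i, (x i - x₀ i) ^ 2 ≤ ∑ i, (2 * (x i - a t i) ^ 2 + 2 * (x₀ i - a t i) ^ 2) :=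
      Finset.sum_le_sum fun i _ => by nlinarith [sq_nonneg ((x i - a t i) + (x₀ i - a t i))]
    rw [Finset.sum_add_distrib, ← Finset.mul_sum, ← Finset.mul_sum] at h4
    show 1 / 2 * _ ≤ (∑ i, (x i - a t i) ^ 2) + (c * r) ^ 2
    linarith
  · intro t _ _ x _
    show ∑ i, pd i (fun x : V => ∑ i, (x i - a t i) ^ 2) x ^ 2 ≤ 4 * ∑ i, (x i - a t i) ^ 2
    rw [hQ (a t)]
    have h5 : ∀ i, pd i (fun y : V => Qf (fun i j => if i = j then 1 else 0) (y - a t)) x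
        = 2 * (x i - a t i) := by
      intro i
      rw [pd_Qf hs]
      simp [Mv]
    simp_rw [h5]
    rw [Finset.mul_sum]
    exact Finset.sum_le_sum fun i _ => by nlinarith
  · intro t _ _ x _
    show 2 * (1 + 2) ≤ lap (fun x : V => ∑ i, (x i - a t i) ^ 2) x
    rw [hQ (a t), lap_Qf hs]
    simp
    norm_num

end Pool.Agent.N982.EM
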