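import Pool.Agent.N982.EM.Def

/-!
The flux term is integrable in time.
-/

set_option autoImplicit false

open MeasureTheory Set Metric Filter Topology
open scoped ContDiff

namespace Pool.Agent.N982.EM

open H459R3.NS W221.NS Pool.Agent.Y8 Pool.Agent.N982.MC

lemma sT_ct : Continuous sT := sT_cd.continuous

lemma sT1_ct : Continuous sT1 := sT1_cd.continuous

lemma Fq_sm (α w σ : ℝ) :
    ContDiffOn ℝ ∞ (fun z : ℝ × ℝ => Fq α w σ z.1 z.2) (Iio (2 * σ ^ 2) ×ˢ univ) := by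
  unfold Fq ex
  have hs : ContDiffOn ℝ ∞ (fun z : ℝ × ℝ => 2 * σ ^ 2 - z.1) (Iio (2 * σ ^ 2) ×ˢ univ) :=
    (contDiff_const.sub contDiff_fst).contDiffOn
  have hs0 : ∀ z ∈ Iio (2 * σ ^ 2) ×ˢ (univ : Set ℝ), (2 * σ ^ 2 - z.1) ≠ 0 := by
    intro z hz
    have h1 : z.1 < 2 * σ ^ 2 := hz.1
    exact (sub_pos.2 h1).ne'
  have hs4 : ∀ z ∈ Iio (2 * σ ^ 2) ×ˢ (univ : Set ℝ), 4 * (2 * σ ^ 2 - z.1) ≠ 0 :=
    fun z hz => mul_ne_zero (by norm_num) (hs0 z hz)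
  have h2 : ContDiff ℝ ∞ (fun z : ℝ × ℝ => 2 - 2 * z.2 / w) :=
    contDiff_const.sub ((contDiff_const.mul contDiff_snd).div_const _)
  have h3 : ContDiff ℝ ∞ (fun z : ℝ × ℝ => 32 * z.1 + 2) :=
    (contDiff_const.mul contDiff_fst).add contDiff_const
  have h4 : ContDiff ℝ ∞ (fun z : ℝ × ℝ => sT (2 - 2 * z.2 / w)) := sT_cd.comp h2
  have h5 : ContDiff ℝ ∞ (fun z : ℝ × ℝ => sT1 (2 - 2 * z.2 / w)) := sT1_cd.comp h2
  have h6 : ContDiff ℝ ∞ (fun z : ℝ × ℝ => sT (32 * z.1 + 2)) := sT_cd.comp h3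
  refine ContDiffOn.mul ?_ (ContDiffOn.mul (ContDiffOn.sub (ContDiffOn.mul ?_
    h4.contDiffOn) (contDiffOn_const.mul h5.contDiffOn)) h6.contDiffOn)
  · refine Real.contDiff_exp.comp_contDiffOn (ContDiffOn.sub ?_ ?_)
    · exact (contDiffOn_const.mul (hs.log hs0)).neg.div_const _
    · exact contDiff_snd.contDiffOn.div (contDiffOn_const.mul hs) hs4
  · exact (contDiffOn_const.div (contDiffOn_const.mul hs) hs4).neg

lemma Fq_jct {α w c t₀ ρ : ℝ} (hρ : 0 < ρ) {ψ : ℝ → V → ℝ}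
    (hψ : ContDiff ℝ ∞ (fun z : ℝ × V => ψ z.1 z.2)) :
    ContinuousOn (fun z : ℝ × V => Fq α w c ((z.1 - t₀) / ρ ^ 2) (ψ z.1 z.2 / ρ ^ 2))
      (Iio (t₀ + 2 * c ^ 2 * ρ ^ 2) ×ˢ univ) := by
  refine (Fq_sm α w c).continuousOn.comp
    (f := fun z : ℝ × V => ((z.1 - t₀) / ρ ^ 2, ψ z.1 z.2 / ρ ^ 2)) ?_ ?_
  · exact (((continuous_fst.sub continuous_const).div_const _).prodMk
      (hψ.continuous.div_const _)).continuousOn
  · intro z hz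
    refine ⟨?_, mem_univ _⟩
    have h2 : z.1 < t₀ + 2 * c ^ 2 * ρ ^ 2 := hz.1
    show (z.1 - t₀) / ρ ^ 2 < 2 * c ^ 2
    rw [div_lt_iff₀ (by positivity)]
    linarith

/-- The integral of a bounded function against a density. -/
lemma kint {W : Set ℝ} (hW : IsOpen W) {x₀ : V} {ρ K : ℝ} {d k : ℝ → V → ℝ}
    (hd : ContinuousOn (fun z : ℝ × V => d z.1 z.2) (W ×ˢ univ))
    (hk : ContinuousOn (fun z : ℝ × V => k z.1 z.2) (W ×ˢ univ))
    (hd0 : ∀ t ∈ W, ∀ x, 0 ≤ d t x) (hK : ∀ t ∈ W, ∀ x ∈ ball x₀ ρ, |k t x| ≤ K)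
    (hi : IntegrableOn (fun t => ∫ x in ball x₀ ρ, d t x) W) :
    IntegrableOn (fun t => ∫ x in ball x₀ ρ, d t x * k t x) W := by
  refine Integrable.mono' (hi.mul_const K) ?_ ?_
  · have h1 : ContinuousOn (fun t => ∫ x in ball x₀ ρ, d t x * k t x) W :=
      pint_cont hW (F := fun t x => d t x * k t x) (hd.mul hk) x₀ ρ
    exact h1.aestronglyMeasurable hW.measurableSet
  · rw [ae_restrict_iff' hW.measurableSet]
    refine ae_of_all _ fun t ht => ?_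
    have c1 : Continuous (d t) := sl_ct (H := W) (F := d) hd ht
    have c2 : Continuous (k t) := sl_ct (H := W) (F := k) hk ht
    refine (norm_integral_le_integral_norm _).trans ?_
    rw [← integral_mul_const]
    refine setIntegral_mono_on (ballint (c1.mul c2).norm _ _)
      (ballint (c1.mul continuous_const) _ _) measurableSet_ball fun x hx => ?_
    rw [norm_mul, Real.norm_eq_abs, Real.norm_eq_abs, abs_of_nonneg (hd0 t ht x)]
    exact mul_le_mul_of_nonneg_left (hK t ht x hx) (hd0 t ht x)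

/-- The flux term is integrable in time. -/
lemma PF_int {κ μ : ℝ} (hμ : 0 < μ) {σ : ℝ} (hσ0 : 0 < σ) {G : Set ℝ} {t₀ : ℝ} {x₀ : V} {R : ℝ}
    {u : ℝ → V → V} {p : ℝ → V → ℝ} (hLS : LS G t₀ x₀ R u p) {ρ a c : ℝ} (hρ : 0 < ρ)
    (hρR : ρ ≤ R) (hc : c ^ 2 ≤ μ / 64) (hPA : PA G t₀ x₀ u ρ a)
    {ψ : ℝ → V → ℝ} (hF : Fo κ μ c ρ t₀ x₀ ψ) {s t : ℝ} (hsG : s ∈ G) (htG : t ∈ G)
    (hs1 : t₀ - ρ ^ 2 < s) (hst : s ≤ t) (ht : t < t₀) :
    IntegrableOn (PF (1 + κ) (μ / 64) σ ρ t₀ ψ u p) (Ioo s t) := by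
  have hρ2 : 0 < ρ ^ 2 := by positivity
  obtain ⟨W, hWd⟩ : ∃ W, W = Wn G t₀ ρ := ⟨_, rfl⟩
  have hWo : IsOpen W := hWd ▸ Wn_open hLS.openG ρ
  have hWG : W ⊆ G := by rw [hWd]; exact inter_subset_left
  have hβ : t₀ < t₀ + 2 * σ ^ 2 * ρ ^ 2 := by
    have : 0 < σ ^ 2 * ρ ^ 2 := by positivity
    linarith
  have hWI : W ⊆ Iio (t₀ + 2 * σ ^ 2 * ρ ^ 2) := by
    rw [hWd]
    exact fun τ hτ => hτ.2.2.trans hβ
  obtain ⟨Φ, hΦ⟩ : ∃ Φ, Φ = Ph (1 + κ) (μ / 64) σ ρ t₀ ψ := ⟨_, rfl⟩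
  have hsm := Ph_smooth (α := 1 + κ) (w := μ / 64) (σ := σ) (t₀ := t₀) hF.smooth hρ
  rw [← hΦ] at hsm
  have hout : ∀ τ ∈ Ioo (t₀ - ρ ^ 2) t₀, ∀ x ∉ ball x₀ (ρ / 4), Φ τ x = 0 := fun τ hτ x hx => by
    rw [hΦ]
    exact Pool.Agent.N982.EM.Ph_out hF hμ hρ hc hτ hx
  obtain ⟨hDi, -⟩ := hLS.en (t₀ - ρ ^ 2) t₀ Φ
    (hsm.mono (prod_mono (fun _ h => h.2.trans hβ) subset_rfl))
    (fun τ hτ z hz => hout τ hτ z fun h => hz (ball_subset_ball (by linarith) h))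
    s hsG t htG hs1 hst (by linarith) (fun τ _ z => by rw [hΦ]; exact Ph_nn τ z)
  -- the three other terms
  have hkc : IsCompact (Icc (t₀ - ρ ^ 2) t₀ ×ˢ closedBall x₀ ρ) :=
    isCompact_Icc.prod (isCompact_closedBall x₀ ρ)
  have hks : Icc (t₀ - ρ ^ 2) t₀ ×ˢ closedBall x₀ ρ
      ⊆ Iio (t₀ + 2 * σ ^ 2 * ρ ^ 2) ×ˢ (univ : Set V) :=
    prod_mono (fun τ hτ => hτ.2.trans_lt hβ) (subset_univ _)
  have hmemk : ∀ τ ∈ W, ∀ x ∈ ball x₀ ρ, ((τ, x) : ℝ × V)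
      ∈ Icc (t₀ - ρ ^ 2) t₀ ×ˢ closedBall x₀ ρ := by
    intro τ hτ x hx
    rw [hWd] at hτ
    exact ⟨⟨hτ.2.1.le, hτ.2.2.le⟩, ball_subset_closedBall hx⟩
  have hWW : W ×ˢ (univ : Set V) ⊆ Iio (t₀ + 2 * σ ^ 2 * ρ ^ 2) ×ˢ univ :=
    prod_mono hWI subset_rfl
  have hWGp : W ×ˢ (univ : Set V) ⊆ G ×ˢ univ := prod_mono hWG subset_rfl
  have hus := hLS.smooth_u.mono hWGp
  have hA2 : IntegrableOn (fun τ => ∫ x in ball x₀ ρ, nsq (u τ) x) W := by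
    refine Integrable.mono' (g := fun _ => ρ * a) ?_ ?_ ?_
    · rw [hWd]
      have h1 : volume (Wn G t₀ ρ) ≠ ⊤ := ne_top_of_le_ne_top ENNReal.ofReal_ne_top (Wn_vol ρ)
      exact integrableOn_const h1
    · exact (pint_cont hWo (F := fun τ x => nsq (u τ) x)
        (nsq_joint hus).continuousOn x₀ ρ).aestronglyMeasurable hWo.measurableSet
    · rw [ae_restrict_iff' hWo.measurableSet]
      refine ae_of_all _ fun τ hτ => ?_
      rw [Real.norm_eq_abs, abs_of_nonneg (integral_nonneg fun x => nsq_nn _ _)]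
      rw [hWd] at hτ
      exact hPA.1 τ hτ
  have hB2 : IntegrableOn (fun τ => ∫ x in ball x₀ ρ, gsq (u τ) x) W := by
    rw [hWd]
    exact hPA.2.1
  obtain ⟨K1, hK1⟩ := hkc.exists_bound_of_continuousOn (hsm.continuousOn.mono hks)
  have c2 : ContinuousOn (fun z : ℝ × V => deriv (fun s => Φ s z.2) z.1 + 1 * lap (Φ z.1) z.2)
      (Iio (t₀ + 2 * σ ^ 2 * ρ ^ 2) ×ˢ univ) :=
    (dt_joint isOpen_Iio hsm).continuousOn.add
      (continuousOn_const.mul (lap_joint isOpen_Iio hsm).continuousOn)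
  obtain ⟨K2, hK2⟩ := hkc.exists_bound_of_continuousOn (c2.mono hks)
  have c3 : ContinuousOn (fun z : ℝ × V => 1 / ρ ^ 2
      * Fq (1 + κ) (μ / 64) σ ((z.1 - t₀) / ρ ^ 2) (ψ z.1 z.2 / ρ ^ 2)
        * deriv (fun s => ψ s z.2) z.1) (Iio (t₀ + 2 * σ ^ 2 * ρ ^ 2) ×ˢ univ) :=
    (continuousOn_const.mul (Fq_jct hρ hF.smooth)).mul (dt_ct hF.smooth).continuousOn
  obtain ⟨K3, hK3⟩ := hkc.exists_bound_of_continuousOn (c3.mono hks)
  have i1 : IntegrableOn (fun τ => ∫ x in ball x₀ ρ, gsq (u τ) x * Φ τ x) W :=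
    kint hWo (d := fun τ x => gsq (u τ) x) (k := Φ) (gsq_joint hWo hus).continuousOn
      (hsm.continuousOn.mono hWW) (fun τ _ x => gsq_nn _ _)
      (fun τ hτ x hx => hK1 (τ, x) (hmemk τ hτ x hx)) hB2
  have i2 : IntegrableOn (fun τ => ∫ x in ball x₀ ρ, nsq (u τ) x
      * (deriv (fun s => Φ s x) τ + 1 * lap (Φ τ) x)) W :=
    kint hWo (d := fun τ x => nsq (u τ) x)
      (k := fun τ x => deriv (fun s => Φ s x) τ + 1 * lap (Φ τ) x)
      (nsq_joint hus).continuousOn (c2.mono hWW) (fun τ _ x => nsq_nn _ _)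
      (fun τ hτ x hx => hK2 (τ, x) (hmemk τ hτ x hx)) hA2
  have i3 : IntegrableOn (fun τ => ∫ x in ball x₀ ρ, nsq (u τ) x
      * (1 / ρ ^ 2 * Fq (1 + κ) (μ / 64) σ ((τ - t₀) / ρ ^ 2) (ψ τ x / ρ ^ 2)
        * deriv (fun s => ψ s x) τ)) W :=
    kint hWo (d := fun τ x => nsq (u τ) x)
      (k := fun τ x => 1 / ρ ^ 2 * Fq (1 + κ) (μ / 64) σ ((τ - t₀) / ρ ^ 2) (ψ τ x / ρ ^ 2)
        * deriv (fun s => ψ s x) τ)
      (nsq_joint hus).continuousOn (c3.mono hWW) (fun τ _ x => nsq_nn _ _)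
      (fun τ hτ x hx => hK3 (τ, x) (hmemk τ hτ x hx)) hA2
  have hseg : Ioo s t ≤ᵐ[volume] W := by
    rw [hWd]
    exact seg_ae hLS hsG htG hs1.le ht.le
  have hall : IntegrableOn (fun τ => DD 1 u p Φ τ
      + 2 * (∫ x in ball x₀ ρ, gsq (u τ) x * Φ τ x)
      - (∫ x in ball x₀ ρ, nsq (u τ) x * (deriv (fun s => Φ s x) τ + 1 * lap (Φ τ) x))
      + ∫ x in ball x₀ ρ, nsq (u τ) x
        * (1 / ρ ^ 2 * Fq (1 + κ) (μ / 64) σ ((τ - t₀) / ρ ^ 2) (ψ τ x / ρ ^ 2)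
          * deriv (fun s => ψ s x) τ)) (Ioo s t) :=
    ((hDi.add ((i1.mono_set_ae hseg).const_mul 2)).sub (i2.mono_set_ae hseg)).add
      (i3.mono_set_ae hseg)
  refine hall.congr ?_
  rw [EventuallyEq, ae_restrict_iff' measurableSet_Ioo]
  filter_upwards [hseg] with τ hτ1 hτ2
  have hτW : τ ∈ W := hτ1 hτ2
  have hτw : τ ∈ Ioo (t₀ - ρ ^ 2) t₀ := by
    rw [hWd] at hτW
    exact hτW.2
  have hτI : τ ∈ Iio (t₀ + 2 * σ ^ 2 * ρ ^ 2) := hWI hτW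
  have hus' := sl_sm hLS.smooth_u (hWG hτW)
  have hps' := sl_sm hLS.smooth_p (hWG hτW)
  have hψs := hF.sm τ
  have hnc := (nsq_sm hus').continuous
  have hflc := fl_cont hψs hus'
  have hdc : Continuous fun x : V => deriv (fun s => ψ s x) τ :=
    (dt_ct hF.smooth).comp (continuous_const.prodMk continuous_id)
  have hFc : Continuous fun x : V =>
      Fq (1 + κ) (μ / 64) σ ((τ - t₀) / ρ ^ 2) (ψ τ x / ρ ^ 2) :=
    (Fq_ct _ _ _ _).comp (hψs.continuous.div_const _)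
  have hFz : ∀ x ∉ ball x₀ ρ,
      Fq (1 + κ) (μ / 64) σ ((τ - t₀) / ρ ^ 2) (ψ τ x / ρ ^ 2) = 0 := by
    intro x hx
    refine Fq_supp (by positivity) ?_
    rw [le_div_iff₀ hρ2]
    exact hF.out hμ hρ hc hτw fun h => hx (ball_subset_ball (by linarith) h)
  have hadv : ∀ x, adv (u τ) (Φ τ) x = 1 / ρ ^ 2
      * Fq (1 + κ) (μ / 64) σ ((τ - t₀) / ρ ^ 2) (ψ τ x / ρ ^ 2) * fl (ψ τ) (u τ) x := by
    intro x
    rw [hΦ]
    exact Ph_adv hψs (u τ) x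
  have hwin : ∀ᶠ s in nhds τ, s ∈ Ioo (t₀ - ρ ^ 2) t₀ := isOpen_Ioo.mem_nhds hτw
  have hz : ∀ x ∉ ball x₀ ρ, nsq (u τ) x *
      (deriv (fun s => Φ s x) τ + 1 * lap (Φ τ) x) = 0 := by
    intro x hx
    have hxc : x ∈ (closedBall x₀ (ρ / 4))ᶜ := fun h => hx
      (closedBall_subset_ball (by linarith) h)
    have g1 : deriv (fun s => Φ s x) τ = 0 := by
      have : (fun s => Φ s x) =ᶠ[nhds τ] fun _ => 0 := by
        filter_upwards [hwin] with s hs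
        exact hout s hs x (fun h => hxc (ball_subset_closedBall h))
      rw [this.deriv_eq]
      simp
    have hop : IsOpen (closedBall x₀ (ρ / 4))ᶜ := isClosed_closedBall.isOpen_compl
    have g2 : ∀ y ∈ (closedBall x₀ (ρ / 4))ᶜ, Φ τ y = (fun _ => (0 : ℝ)) y := fun y hy =>
      hout τ hτw y (fun h => hy (ball_subset_closedBall h))
    have g3 : lap (Φ τ) x = 0 := by
      unfold lap
      refine Finset.sum_eq_zero fun j _ => ?_
      rw [Pool.Agent.W240.ME.pd_congr' hop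
        (Pool.Agent.W240.ME.pd_congr' hop g2 j) j x hxc]
      have : pd j (fun _ : V => (0 : ℝ)) = fun _ => 0 := by
        funext y
        exact Pool.Agent.W240.ME.pd_const 0 j y
      rw [this, Pool.Agent.W240.ME.pd_const]
    rw [g1, g3]
    ring
  have q1 : ∫ x, gsq (u τ) x * Φ τ x = ∫ x in ball x₀ ρ, gsq (u τ) x * Φ τ x :=
    (ball_int_eq fun x hx => by
      rw [hout τ hτw x fun h => hx (ball_subset_ball (by linarith) h), mul_zero]).symm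
  have q2 : ∫ x, nsq (u τ) x * (deriv (fun s => Φ s x) τ + 1 * lap (Φ τ) x)
      = ∫ x in ball x₀ ρ, nsq (u τ) x * (deriv (fun s => Φ s x) τ + 1 * lap (Φ τ) x) :=
    (ball_int_eq hz).symm
  have q3 : ∫ x, (nsq (u τ) x + 2 * p τ x) * adv (u τ) (Φ τ) x
      = ∫ x in ball x₀ ρ, (nsq (u τ) x + 2 * p τ x) * (1 / ρ ^ 2
        * Fq (1 + κ) (μ / 64) σ ((τ - t₀) / ρ ^ 2) (ψ τ x / ρ ^ 2) * fl (ψ τ) (u τ) x) := by
    simp_rw [hadv]
    refine (ball_int_eq fun x hx => ?_).symm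
    rw [hFz x hx]
    ring
  have q4 : PF (1 + κ) (μ / 64) σ ρ t₀ ψ u p τ
      = (∫ x in ball x₀ ρ, nsq (u τ) x
        * (1 / ρ ^ 2 * Fq (1 + κ) (μ / 64) σ ((τ - t₀) / ρ ^ 2) (ψ τ x / ρ ^ 2)
          * deriv (fun s => ψ s x) τ))
        + ∫ x in ball x₀ ρ, (nsq (u τ) x + 2 * p τ x) * (1 / ρ ^ 2
          * Fq (1 + κ) (μ / 64) σ ((τ - t₀) / ρ ^ 2) (ψ τ x / ρ ^ 2) * fl (ψ τ) (u τ) x) := by
    rw [← integral_add]
    · unfold PF
      rw [← ball_int_eq (a := x₀) (R := ρ)]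
      · refine setIntegral_congr_fun measurableSet_ball fun x _ => ?_
        simp only [ef]
        ring
      · intro x hx
        rw [hFz x hx]
        ring
    · exact ballint (hnc.mul ((continuous_const.mul hFc).mul hdc)) _ _
    · exact ballint ((hnc.add (continuous_const.mul hps'.continuous)).mul
        ((continuous_const.mul hFc).mul hflc)) _ _
  rw [q4]
  show DD 1 u p Φ τ + 2 * (∫ x in ball x₀ ρ, gsq (u τ) x * Φ τ x)
      - (∫ x in ball x₀ ρ, nsq (u τ) x * (deriv (fun s => Φ s x) τ + 1 * lap (Φ τ) x))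
      + _ = _
  unfold DD
  rw [q1, q2, q3]
  ring

end Pool.Agent.N982.EM
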