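import Pool.Agent.N982.EM.Nu
import Pool.Agent.Y8.Asm2

/-!
At a regular point only finitely many scales have influx.
-/

set_option autoImplicit false

open MeasureTheory Set Metric Filter Topology
open scoped ContDiff Pointwise

namespace Pool.Agent.N982.EM

open H459R3.NS W221.NS Pool.Agent.Y8 Pool.Agent.N982.MC

/-- Concentric spheres. -/
theorem sph0 {ν κ μ : ℝ} (hκ : κ ≤ 2) (hμ : μ ≤ 1) (c r t₀ : ℝ) (x₀ : V) :
    FoN ν κ μ c r t₀ x₀ (fun _ x => ∑ i, (x i - x₀ i) ^ 2) := by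
  have hQ : (fun x : V => ∑ i, (x i - x₀ i) ^ 2)
      = fun x => Qf (fun i j => if i = j then 1 else 0) (x - x₀) := by
    funext x
    simp only [Qf, Mv, ite_mul, one_mul, zero_mul, Finset.sum_ite_eq, Finset.mem_univ, if_true,
      Pi.sub_apply]
    exact Finset.sum_congr rfl fun i _ => sq _
  have hs : ∀ i j : Fin 3, (fun i j : Fin 3 => if i = j then (1 : ℝ) else 0) i j
      = (fun i j : Fin 3 => if i = j then (1 : ℝ) else 0) j i := fun i j => by
    simp only [eq_comm]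
  refine ⟨?_, ?_, ?_, ?_, ?_⟩
  · refine ContDiff.sum fun i _ => ContDiff.pow (ContDiff.sub ?_ contDiff_const) 2
    exact (contDiff_apply ℝ ℝ i).comp contDiff_snd
  · intro t _ _
    simp
    positivity
  · intro t h1 h2 x
    have h3 : 0 ≤ ∑ i, (x i - x₀ i) ^ 2 := Finset.sum_nonneg fun i _ => sq_nonneg _
    have h4 : 0 ≤ (c * r) ^ 2 := sq_nonneg _
    show μ * ∑ i, (x i - x₀ i) ^ 2 ≤ (∑ i, (x i - x₀ i) ^ 2) + (c * r) ^ 2
    nlinarith
  · intro t _ _ x _
    show ∑ i, pd i (fun x : V => ∑ i, (x i - x₀ i) ^ 2) x ^ 2 ≤ 4 * ∑ i, (x i - x₀ i) ^ 2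
    rw [hQ]
    have h5 : ∀ i, pd i (fun y : V => Qf (fun i j => if i = j then 1 else 0) (y - x₀)) x
        = 2 * (x i - x₀ i) := by
      intro i
      rw [pd_Qf hs]
      simp [Mv]
    simp_rw [h5]
    rw [Finset.mul_sum]
    exact Finset.sum_le_sum fun i _ => by nlinarith
  · intro t _ _ x _
    show 2 * (1 + κ) ≤ lap (fun x : V => ∑ i, (x i - x₀ i) ^ 2) x
    rw [hQ, lap_Qf hs]
    have : ∑ i : Fin 3, (if i = i then (1 : ℝ) else 0) = 3 := by simp
    rw [this]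
    linarith

lemma fl_sph (x₀ : V) (v : V → V) (x : V) :
    fl (fun x : V => ∑ i, (x i - x₀ i) ^ 2) v x = 2 * ∑ i, v x i * (x i - x₀ i) := by
  have hQ : (fun x : V => ∑ i, (x i - x₀ i) ^ 2)
      = fun x => Qf (fun i j => if i = j then 1 else 0) (x - x₀) := by
    funext x
    simp only [Qf, Mv, ite_mul, one_mul, zero_mul, Finset.sum_ite_eq, Finset.mem_univ, if_true,
      Pi.sub_apply]
    exact Finset.sum_congr rfl fun i _ => sq _
  have hs : ∀ i j : Fin 3, (fun i j : Fin 3 => if i = j then (1 : ℝ) else 0) i j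
      = (fun i j : Fin 3 => if i = j then (1 : ℝ) else 0) j i := fun i j => by
    simp only [eq_comm]
  rw [hQ, fl_quad hs]
  congr 1
  refine Finset.sum_congr rfl fun i _ => ?_
  simp [Mv]

lemma fl_sph_le {x₀ : V} {v : V → V} {x : V} {B ρ : ℝ} (hv : ‖v x‖ ≤ B) (hx : x ∈ ball x₀ ρ) :
    |fl (fun x : V => ∑ i, (x i - x₀ i) ^ 2) v x| ≤ 6 * B * ρ := by
  have hB : 0 ≤ B := (norm_nonneg _).trans hv
  rw [fl_sph, abs_mul, abs_of_pos (by norm_num : (0 : ℝ) < 2)]
  have h1 : |∑ i, v x i * (x i - x₀ i)| ≤ ∑ i : Fin 3, B * ρ := by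
    refine (Finset.abs_sum_le_sum_abs _ _).trans (Finset.sum_le_sum fun i _ => ?_)
    rw [abs_mul]
    have h2 : |v x i| ≤ B := (norm_le_pi_norm (v x) i).trans hv
    have h3 : |x i - x₀ i| ≤ ρ := by
      have h4 := norm_le_pi_norm (x - x₀) i
      rw [mem_ball, dist_eq_norm] at hx
      exact h4.trans hx.le
    exact mul_le_mul h2 h3 (abs_nonneg _) hB
  rw [Finset.sum_const, Finset.card_univ, Fintype.card_fin] at h1
  simp only [nsmul_eq_mul] at h1
  push_cast at h1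
  linarith

lemma nsq_le3 {v : V → V} {x : V} {B : ℝ} (hv : ‖v x‖ ≤ B) : nsq v x ≤ 3 * B ^ 2 := by
  unfold nsq
  have h1 : ∑ i, v x i ^ 2 ≤ ∑ _i : Fin 3, B ^ 2 := by
    refine Finset.sum_le_sum fun i _ => ?_
    have h2 : |v x i| ≤ B := (norm_le_pi_norm (v x) i).trans hv
    rw [← sq_abs]
    exact pow_le_pow_left₀ (abs_nonneg _) h2 2
  rw [Finset.sum_const, Finset.card_univ, Fintype.card_fin] at h1
  simp only [nsmul_eq_mul] at h1
  push_cast at h1
  exact h1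

/-- The inward flux at a regular point. -/
lemma FI_reg {v : V → V} {q : V → ℝ} (hv : ContDiff ℝ ∞ v) (hq : ContDiff ℝ ∞ q) {x₀ : V}
    {ρ R B : ℝ} (hρ : 0 < ρ) (hρR : ρ ≤ R) (hB : ∀ x ∈ ball x₀ ρ, ‖v x‖ ≤ B) :
    FI (fun x : V => ∑ i, (x i - x₀ i) ^ 2) x₀ ρ v q
      ≤ 144 * B ^ 3 * ρ ^ 4 + 12 * B * ρ * √(8 * ρ ^ 3 * Pi2 q x₀ R) := by
  obtain ⟨m, hm⟩ : ∃ m, m = pav q x₀ ρ := ⟨_, rfl⟩
  have hB0 : 0 ≤ B := (norm_nonneg _).trans (hB x₀ (mem_ball_self hρ))
  have hqc := hq.continuous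
  have hψ : ContDiff ℝ ∞ (fun x : V => ∑ i, (x i - x₀ i) ^ 2) :=
    ContDiff.sum fun i _ => ((contDiff_apply ℝ ℝ i).sub contDiff_const).pow 2
  have hP : Pi2 q x₀ ρ ≤ Pi2 q x₀ R := by
    refine (Pi2_le hqc hρ (pav q x₀ R)).trans ?_
    exact setIntegral_mono_set (ballint (by fun_prop) _ _) (ae_of_all _ fun _ => sq_nonneg _)
      (ball_subset_ball hρR).eventuallyLE
  have h1 : (∫ x in ball x₀ ρ, |q x - m|) ≤ √(8 * ρ ^ 3 * Pi2 q x₀ R) := by
    apply Real.le_sqrt_of_sq_le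
    have h2 := cs_gen (μ := volume.restrict (ball x₀ ρ)) (f := fun _ : V => (1 : ℝ))
      (g := fun x => |q x - m|) (ballint (by fun_prop) _ _) (ballint (by fun_prop) _ _)
      (ballint (by fun_prop) _ _)
    simp only [one_mul, one_pow, sq_abs] at h2
    rw [Pool.Agent.W699.ME.int_const_ball x₀ hρ, mul_one] at h2
    refine h2.trans (mul_le_mul_of_nonneg_left ?_ (by positivity))
    rw [hm]
    exact hP
  unfold FI
  rw [← hm]
  have h3 : ∫ x in ball x₀ (ρ / 2), ngf (fun x : V => ∑ i, (x i - x₀ i) ^ 2) v q m x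
      ≤ ∫ x in ball x₀ ρ, (3 * B ^ 2 + 2 * |q x - m|) * (6 * B * ρ) := by
    refine (setIntegral_mono_set (ballint (ngf_cont hψ hv hq m) _ _)
      (ae_of_all _ fun x => ngf_nn _ _ _ _ _)
      (ball_subset_ball (by linarith : ρ / 2 ≤ ρ)).eventuallyLE).trans ?_
    refine setIntegral_mono_on (ballint (ngf_cont hψ hv hq m) _ _)
      (ballint (by fun_prop) _ _) measurableSet_ball fun x hx => ?_
    unfold ngf
    have g1 := fl_sph_le (hB x hx) hx
    have g2 := nsq_le3 (hB x hx)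
    have g3 := nsq_nn v x
    refine max_le (mul_nonneg (by positivity) (by positivity)) ?_
    refine (neg_le_abs _).trans ?_
    rw [abs_mul]
    refine mul_le_mul ?_ g1 (abs_nonneg _) (by positivity)
    refine (abs_add_le _ _).trans ?_
    rw [abs_of_nonneg g3, abs_mul, abs_of_pos (by norm_num : (0 : ℝ) < 2)]
    linarith
  refine h3.trans ?_
  rw [integral_mul_const, integral_add (ballint continuous_const _ _) (ballint (by fun_prop) _ _),
    Pool.Agent.W699.ME.int_const_ball x₀ hρ, integral_const_mul]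
  have h4 := mul_le_mul_of_nonneg_right h1 (show 0 ≤ 12 * B * ρ by positivity)
  nlinarith

end Pool.Agent.N982.EM
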