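import Pool.Agent.N982.EM.Reg

/-!
At a regular point only finitely many scales have influx, second part.
-/

set_option autoImplicit false

open MeasureTheory Set Metric Filter Topology
open scoped ContDiff Pointwise

namespace Pool.Agent.N982.EM

open H459R3.NS W221.NS Pool.Agent.Y8 Pool.Agent.N982.MC

lemma amgm {y z : ℝ} (hy : 0 ≤ y) (hz : 0 ≤ z) : 256 * y ^ 3 * z ≤ (3 * y + z) ^ 4 := by
  have h1 : 0 ≤ (y - z) ^ 2 * (81 * y ^ 2 + 14 * y * z + z ^ 2) := by positivity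
  nlinarith

/-- Young's inequality for the pressure. -/
lemma pi_young {P k A b ρ : ℝ} (hP : 0 ≤ P) (hk : 0 ≤ k) (hA : 0 < A) (hb : 0 < b) (hρ : 0 < ρ)
    (h : P ^ 2 ≤ A ^ 4 * k ^ 3) :
    √(8 * ρ ^ 3 * P) ≤ 3 * A * (3 / 4 * b * ρ ^ 2 * k + 1 / (4 * b ^ 3)) := by
  obtain ⟨s, hs⟩ : ∃ s, s = √ρ := ⟨_, rfl⟩
  have hs0 : 0 < s := by rw [hs]; exact Real.sqrt_pos.2 hρ
  have hsρ : ρ = s ^ 2 := by rw [hs, Real.sq_sqrt hρ.le]
  obtain ⟨Z, hZ⟩ : ∃ Z, Z = (3 * (b * s * k) + 1 / (b * s) ^ 3) / 4 := ⟨_, rfl⟩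
  have hZ0 : 0 ≤ Z := by rw [hZ]; positivity
  have h1 : k ^ 3 ≤ Z ^ 4 := by
    have h2 := amgm (y := b * s * k) (z := 1 / (b * s) ^ 3) (by positivity) (by positivity)
    have e1 : 256 * (b * s * k) ^ 3 * (1 / (b * s) ^ 3) = 256 * k ^ 3 := by field_simp
    rw [e1] at h2
    have e2 : Z ^ 4 = (3 * (b * s * k) + 1 / (b * s) ^ 3) ^ 4 / 256 := by
      rw [hZ, div_pow]
      norm_num
    rw [e2, le_div_iff₀ (by norm_num)]
    linarith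
  have h2 : P ≤ (A * Z) ^ 2 := by
    refine abs_le_of_sq_le_sq' ?_ (by positivity) |>.2
    refine h.trans ?_
    have e : ((A * Z) ^ 2) ^ 2 = A ^ 4 * Z ^ 4 := by ring
    rw [e]
    exact mul_le_mul_of_nonneg_left h1 (by positivity)
  have e3 : 3 * A * (3 / 4 * b * ρ ^ 2 * k + 1 / (4 * b ^ 3)) = 3 * s ^ 3 * (A * Z) := by
    rw [hZ, hsρ]
    field_simp
  rw [e3]
  apply Real.sqrt_le_iff.2
  refine ⟨by positivity, ?_⟩
  have e4 : (3 * s ^ 3 * (A * Z)) ^ 2 = 9 * ρ ^ 3 * (A * Z) ^ 2 := by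
    rw [hsρ]
    ring
  rw [e4]
  have h3 : 0 ≤ ρ ^ 3 * (A * Z) ^ 2 := by positivity
  have h4 : 8 * ρ ^ 3 * P ≤ 8 * ρ ^ 3 * (A * Z) ^ 2 :=
    mul_le_mul_of_nonneg_left h2 (by positivity)
  linarith

lemma nFlux_PF {κ μ c Cq : ℝ} (hμ : 0 < μ) (hcμ : c ^ 2 ≤ μ / 64) (hCq : 0 < Cq) {G : Set ℝ}
    (hG : IsOpen G) {t₀ : ℝ} {x₀ : V} {u : ℝ → V → V} {p : ℝ → V → ℝ} {ρ : ℝ} (hρ : 0 < ρ)
    {ψ : ℝ → V → ℝ} (hF : Fo κ μ c ρ t₀ x₀ ψ) (t : ℝ) :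
    nFlux 1 (eta κ μ c Cq) G t₀ x₀ u p ρ ψ t
      = -(ρ ^ 2 / Cq) * ∫ s in Wn G t₀ ρ ∩ Iio t, PF (1 + κ) (μ / 64) c ρ t₀ ψ u p s := by
  have hρ2 : 0 < ρ ^ 2 := by positivity
  unfold nFlux
  rw [Wv_one, ← integral_const_mul]
  refine setIntegral_congr_fun ((Wn_open hG ρ).inter isOpen_Iio).measurableSet
    fun s hs => ?_
  show ∫ x in ball x₀ ρ, eta κ μ c Cq (1 * (s - t₀) / ρ ^ 2) (ψ s x / ρ ^ 2) * ef u p ψ s x
    = -(ρ ^ 2 / Cq) * PF (1 + κ) (μ / 64) c ρ t₀ ψ u p s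
  have e1 : PF (1 + κ) (μ / 64) c ρ t₀ ψ u p s = ∫ x in ball x₀ ρ,
      1 / ρ ^ 2 * Fq (1 + κ) (μ / 64) c ((s - t₀) / ρ ^ 2) (ψ s x / ρ ^ 2)
        * ef u p ψ s x := by
    unfold PF
    rw [ball_int_eq]
    intro x hx
    have h1 : x ∉ ball x₀ (ρ / 4) := fun h => hx (ball_subset_ball (by linarith) h)
    have h2 : Fq (1 + κ) (μ / 64) c ((s - t₀) / ρ ^ 2) (ψ s x / ρ ^ 2) = 0 := by
      refine Fq_supp (by positivity) ?_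
      rw [le_div_iff₀ hρ2]
      exact hF.out hμ hρ hcμ hs.1.2 h1
    rw [h2]
    ring
  rw [e1, ← integral_const_mul]
  refine setIntegral_congr_fun measurableSet_ball fun x hx => ?_
  show eta κ μ c Cq (1 * (s - t₀) / ρ ^ 2) (ψ s x / ρ ^ 2) * ef u p ψ s x
    = -(ρ ^ 2 / Cq) * (1 / ρ ^ 2
      * Fq (1 + κ) (μ / 64) c ((s - t₀) / ρ ^ 2) (ψ s x / ρ ^ 2) * ef u p ψ s x)
  unfold eta
  rw [one_mul]
  field_simp

/-- At a regular point there is no influx at the small scales (viscosity one). -/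
theorem no_influx {κ μ : ℝ} (hκ : 0 < κ) (hκ2 : κ ≤ 2) (hμ : 0 < μ) (hμ1 : μ ≤ 1) {c : ℝ}
    (hc0 : 0 < c) (hc32 : c ^ 2 ≤ 1 / 32) (hcμ : c ^ 2 ≤ μ / 64) {Cq ε : ℝ} (hCq : 0 < Cq)
    (hε : 0 < ε) {T E D : ℝ} {G : Set ℝ} {u : ℝ → V → V} {p : ℝ → V → ℝ}
    (h : Turb 1 T E D G u p) {t₀ : ℝ} {x₀ : V} {r₀ : ℝ} (hr₀ : 0 < r₀) (hr₀1 : r₀ ≤ 1)
    (ht₀ : t₀ ≤ T) (hr₀t : r₀ ^ 2 ≤ t₀) (hreg : ¬ SingPt G u t₀ x₀) :
    ∃ ρ₁ : ℝ, 0 < ρ₁ ∧ ∀ ρ : ℝ, 0 < ρ → ρ < ρ₁ →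
      ¬ Influx 1 κ μ c ε (eta κ μ c Cq) G t₀ x₀ u p ρ := by
  obtain ⟨Cf, hCf, hfx⟩ := Pool.Agent.N982.EM.flux_in hκ (by linarith) hμ hc0 hc32
  unfold SingPt at hreg
  push Not at hreg
  obtain ⟨δ, hδ, B₀, hB₀⟩ := hreg
  obtain ⟨B, hBd⟩ : ∃ B, B = |B₀| + 1 := ⟨_, rfl⟩
  have hB : 0 < B := by rw [hBd]; positivity
  have hBB : B₀ ≤ B := by rw [hBd]; linarith [le_abs_self B₀]
  have hD : 0 ≤ D := (setIntegral_nonneg h.openG.measurableSet fun t _ => enst_nn _).trans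
    h.enst_le
  obtain ⟨C₂, hC₂, hP⟩ := start_D r₀ hr₀
  obtain ⟨A, hAd⟩ : ∃ A, A = r₀ * (C₂ * (E ^ 2 + D + 1)) := ⟨_, rfl⟩
  have hC₂0 : 0 < C₂ := by linarith
  have hA : 0 < A := by rw [hAd]; positivity
  obtain ⟨K, hK1, hK2, -⟩ := hP T E D G u p h t₀ x₀
  rw [← hAd] at hK2
  obtain ⟨e, he⟩ : ∃ e, e = ε * Cq / Cf := ⟨_, rfl⟩
  have he0 : 0 < e := by rw [he]; positivity
  obtain ⟨b, hb⟩ : ∃ b, b = 54 * (B * A) / e + 1 := ⟨_, rfl⟩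
  have hb1 : 1 ≤ b := by
    rw [hb]
    have : 0 < 54 * (B * A) / e := by positivity
    linarith
  have hb0 : 0 < b := by linarith
  have hbe : 18 * (B * A) / b ^ 3 ≤ e / 3 := by
    have h1 : 54 * (B * A) / e ≤ b := by rw [hb]; linarith
    rw [div_le_iff₀ he0] at h1
    have h2 : b ≤ b ^ 3 := le_self_pow₀ hb1 (by norm_num)
    rw [div_le_div_iff₀ (by positivity) (by norm_num)]
    have h3 : b * e ≤ b ^ 3 * e := mul_le_mul_of_nonneg_right h2 he0.le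
    linarith
  obtain ⟨δ₂, hδ₂, hd₂⟩ := abs_cont hK1 (show 0 < e / (81 * B * A * b) by positivity)
  refine ⟨min (min r₀ δ) (min δ₂ (e / (864 * B ^ 3))), by positivity, ?_⟩
  intro ρ hρ hρ1
  have hρr : ρ ≤ r₀ := (hρ1.trans_le ((min_le_left _ _).trans (min_le_left _ _))).le
  have hρδ : ρ < δ := hρ1.trans_le ((min_le_left _ _).trans (min_le_right _ _))
  have hρδ2 : ρ < δ₂ := hρ1.trans_le ((min_le_right _ _).trans (min_le_left _ _))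
  have hρe : ρ ≤ e / (864 * B ^ 3) :=
    (hρ1.trans_le ((min_le_right _ _).trans (min_le_right _ _))).le
  have hρone : ρ ≤ 1 := hρr.trans hr₀1
  have hρ2 : 0 < ρ ^ 2 := by positivity
  have hρ2ρ : ρ ^ 2 ≤ ρ := by nlinarith
  have hWo := Wn_open h.openG (t₀ := t₀) ρ
  have hWsub : Wn G t₀ ρ ⊆ Wn G t₀ r₀ := Wn_mono hρ.le hρr
  have hLS : LS G t₀ x₀ ρ u p := ls_turb h ht₀ hρ (by nlinarith) x₀
  obtain ⟨ψ, hψd⟩ : ∃ ψ : ℝ → V → ℝ, ψ = fun _ x => ∑ i, (x i - x₀ i) ^ 2 := ⟨_, rfl⟩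
  have hFN : FoN 1 κ μ c ρ t₀ x₀ ψ := by
    rw [hψd]
    exact sph0 hκ2 hμ1 c ρ t₀ x₀
  have hF := FoN_one hFN
  -- the bound of the flux term
  obtain ⟨Y, hYd⟩ : ∃ Y : ℝ → ℝ, Y = fun t => (144 * B ^ 3 * ρ ^ 4 + 9 * B * A / b ^ 3 * ρ)
    + 27 * B * A * b * ρ ^ 3 * K t := ⟨_, rfl⟩
  have hPY : ∀ t ∈ Wn G t₀ ρ, PF (1 + κ) (μ / 64) c ρ t₀ ψ u p t ≤ Cf / ρ ^ 2 * Y t := by
    intro t ht
    have hus := sl_sm h.smooth_u ht.1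
    have hps := sl_sm h.smooth_p ht.1
    have h1 := hfx ψ (u t) (p t) hus hps x₀ ρ t₀ t c hF hρ hcμ ht.2 (hLS.div t ht.1)
    have h2 : PF (1 + κ) (μ / 64) c ρ t₀ ψ u p t
        = ∫ x, (nsq (u t) x + 2 * p t x) * adv (u t) (Ph (1 + κ) (μ / 64) c ρ t₀ ψ t) x := by
      unfold PF
      congr 1
      funext x
      rw [Ph_adv (hF.sm t)]
      unfold ef
      have h3 : deriv (fun s => ψ s x) t = 0 := by
        rw [hψd]
        simp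
      rw [h3]
      ring
    rw [h2]
    refine h1.trans (mul_le_mul_of_nonneg_left ?_ (by positivity))
    have h4 : ∀ x ∈ ball x₀ ρ, ‖u t x‖ ≤ B := by
      intro x hx
      refine (hB₀ t ht.1 ?_ x (ball_subset_ball hρδ.le hx)).trans hBB
      rw [abs_lt]
      have h5 := ht.2.1
      have h6 := ht.2.2
      constructor <;> linarith
    have h5 := FI_reg hus hps hρ hρr h4
    have hkt := hK2 t (hWsub ht)
    have h6 := pi_young (Pi2_nn (p t) x₀ r₀) hkt.1 hA hb0 hρ hkt.2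
    rw [hψd, hYd]
    refine h5.trans ?_
    have h7 := mul_le_mul_of_nonneg_left h6 (show 0 ≤ 12 * B * ρ by positivity)
    have e1 : 12 * B * ρ * (3 * A * (3 / 4 * b * ρ ^ 2 * K t + 1 / (4 * b ^ 3)))
        = 27 * B * A * b * ρ ^ 3 * K t + 9 * B * A / b ^ 3 * ρ := by
      field_simp
      ring
    rw [e1] at h7
    show _ ≤ (144 * B ^ 3 * ρ ^ 4 + 9 * B * A / b ^ 3 * ρ) + 27 * B * A * b * ρ ^ 3 * K t
    linarith
  obtain ⟨i1, i2⟩ := Wn_const (G := G) (t₀ := t₀) (r := ρ)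
    (c := 144 * B ^ 3 * ρ ^ 4 + 9 * B * A / b ^ 3 * ρ) (by positivity)
  have iK : IntegrableOn K (Wn G t₀ ρ) := hK1.mono_set hWsub
  have hYi : IntegrableOn Y (Wn G t₀ ρ) := by
    rw [hYd]
    exact i1.add (iK.const_mul _)
  have hYn : ∀ t ∈ Wn G t₀ ρ, 0 ≤ Y t := by
    intro t ht
    have := (hK2 t (hWsub ht)).1
    rw [hYd]
    positivity
  have hKs : ∫ t in Wn G t₀ ρ, K t ≤ e / (81 * B * A * b) := by
    refine le_trans ?_ (hd₂ (t₀ - ρ ^ 2) t₀ (by linarith) (Wn G t₀ ρ) hWsub hWo.measurableSet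
      (fun t ht => ⟨ht.2.1.le, ht.2.2.le⟩))
    exact setIntegral_mono_on iK iK.abs hWo.measurableSet fun t _ => le_abs_self _
  have hYs : ∫ t in Wn G t₀ ρ, Y t ≤ e * ρ ^ 3 := by
    rw [hYd]
    show ∫ t in Wn G t₀ ρ, ((144 * B ^ 3 * ρ ^ 4 + 9 * B * A / b ^ 3 * ρ)
      + 27 * B * A * b * ρ ^ 3 * K t) ≤ _
    rw [integral_add i1 (iK.const_mul _), integral_const_mul]
    have h1 : 27 * B * A * b * ρ ^ 3 * ∫ t in Wn G t₀ ρ, K t ≤ e / 3 * ρ ^ 3 := by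
      have h2 := mul_le_mul_of_nonneg_left hKs (show 0 ≤ 27 * B * A * b * ρ ^ 3 by positivity)
      refine h2.trans (le_of_eq ?_)
      field_simp
      norm_num
    have h3 : 2 * ρ ^ 2 * (144 * B ^ 3 * ρ ^ 4 + 9 * B * A / b ^ 3 * ρ)
        ≤ e / 3 * ρ ^ 3 + e / 3 * ρ ^ 3 := by
      have h4 : 2 * ρ ^ 2 * (144 * B ^ 3 * ρ ^ 4) ≤ e / 3 * ρ ^ 3 := by
        rw [le_div_iff₀ (by positivity)] at hρe
        have h5 : ρ ^ 3 ≤ ρ := by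
          calc ρ ^ 3 = ρ * ρ ^ 2 := by ring
            _ ≤ ρ * 1 := mul_le_mul_of_nonneg_left (by nlinarith) hρ.le
            _ = ρ := mul_one _
        have h6 : ρ ^ 3 * (864 * B ^ 3) ≤ e :=
          (mul_le_mul_of_nonneg_right h5 (by positivity)).trans hρe
        have h7 := mul_le_mul_of_nonneg_right h6 (show 0 ≤ ρ ^ 3 / 3 by positivity)
        calc 2 * ρ ^ 2 * (144 * B ^ 3 * ρ ^ 4) = ρ ^ 3 * (864 * B ^ 3) * (ρ ^ 3 / 3) := by ring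
          _ ≤ e * (ρ ^ 3 / 3) := h7
          _ = _ := by ring
      have h8 : 2 * ρ ^ 2 * (9 * B * A / b ^ 3 * ρ) ≤ e / 3 * ρ ^ 3 := by
        have h9 := mul_le_mul_of_nonneg_right hbe (show 0 ≤ ρ ^ 3 by positivity)
        refine le_trans (le_of_eq ?_) h9
        ring
      linarith
    linarith
  unfold Influx
  push Not
  refine ⟨ψ, hFN, fun t ht => ?_⟩
  rw [nFlux_PF hμ hcμ hCq h.openG hρ hF]
  have hI : ∫ s in Wn G t₀ ρ ∩ Iio t, PF (1 + κ) (μ / 64) c ρ t₀ ψ u p s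
      ≤ Cf / ρ ^ 2 * (e * ρ ^ 3) := by
    have hms : MeasurableSet (Wn G t₀ ρ ∩ Iio t) := (hWo.inter isOpen_Iio).measurableSet
    have h1 : ∫ s in Wn G t₀ ρ ∩ Iio t, Cf / ρ ^ 2 * Y s ≤ Cf / ρ ^ 2 * (e * ρ ^ 3) := by
      rw [integral_const_mul]
      refine mul_le_mul_of_nonneg_left (le_trans ?_ hYs) (by positivity)
      refine setIntegral_mono_set hYi ?_ (inter_subset_left (s := Wn G t₀ ρ)).eventuallyLE
      rw [EventuallyLE, ae_restrict_iff' hWo.measurableSet]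
      exact ae_of_all _ hYn
    by_cases hint : IntegrableOn (PF (1 + κ) (μ / 64) c ρ t₀ ψ u p) (Wn G t₀ ρ ∩ Iio t)
    · refine (setIntegral_mono_on hint ((hYi.mono_set inter_subset_left).const_mul _) hms
        fun s hs => hPY s hs.1).trans h1
    · rw [integral_undef hint]
      positivity
  have hEb : ρ ≤ Eb 1 G t₀ x₀ u ρ := by
    unfold Eb
    have h0 : 0 ≤ sSup ((fun t => A2 x₀ ρ (u t)) '' Wv 1 G t₀ ρ) := by
      refine Real.sSup_nonneg ?_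
      rintro _ ⟨t, -, rfl⟩
      exact A2_nn _ _ _
    have h1 : 0 ≤ ∫ t in Wv 1 G t₀ ρ, B2 x₀ ρ (u t) := integral_nonneg fun t => B2_nn _ _ _
    linarith
  have h2 := mul_le_mul_of_nonneg_left hI (show 0 ≤ ρ ^ 2 / Cq by positivity)
  have e2 : ρ ^ 2 / Cq * (Cf / ρ ^ 2 * (e * ρ ^ 3)) = ε * ρ ^ 2 * ρ := by
    rw [he]
    field_simp
  rw [e2] at h2
  have h3 : ε * ρ ^ 2 * ρ ≤ ε * ρ ^ 2 * Eb 1 G t₀ x₀ u ρ :=
    mul_le_mul_of_nonneg_left hEb (by positivity)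
  linarith

end Pool.Agent.N982.EM
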