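import Pool.Agent.N982.EM.PFi
import Pool.Agent.N982.MC.StepE

/-!
The energy step, second part, and the iteration.
-/

set_option autoImplicit false

open MeasureTheory Set Metric Filter Topology
open scoped ContDiff

namespace Pool.Agent.N982.EM

open H459R3.NS W221.NS Pool.Agent.Y8 Pool.Agent.N982.MC

lemma PF_early {α w σ ρ t₀ : ℝ} {ψ : ℝ → V → ℝ} {u : ℝ → V → V} {p : ℝ → V → ℝ} {t : ℝ}
    (hρ : 0 < ρ) (ht : t ≤ t₀ - ρ ^ 2 / 16) : PF α w σ ρ t₀ ψ u p t = 0 := by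
  have h1 : (t - t₀) / ρ ^ 2 ≤ -1 / 16 := by
    rw [div_le_iff₀ (by positivity)]
    linarith
  have h2 : sT (32 * ((t - t₀) / ρ ^ 2) + 2) = 0 := sT_zero (by linarith)
  have h3 : ∀ q, Fq α w σ ((t - t₀) / ρ ^ 2) q = 0 := by
    intro q
    unfold Fq
    rw [h2]
    ring
  unfold PF
  simp_rw [h3]
  simp

/-- The step for the energy. -/
lemma stepE {κ μ : ℝ} (hκ : 0 < κ) (hκ1 : κ ≤ 3) (hμ : 0 < μ) :
    ∃ C₀ : ℝ, 0 < C₀ ∧ ∀ σ : ℝ, 0 < σ → σ ≤ 1 / 64 → 24 * σ ^ 2 ≤ μ / 64 → ∃ C₁ : ℝ, 0 < C₁ ∧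
    ∀ (G : Set ℝ) (t₀ : ℝ) (x₀ : V) (R : ℝ) (u : ℝ → V → V) (p : ℝ → V → ℝ),
      LS G t₀ x₀ R u p → ∀ ρ a θ N : ℝ, 0 < ρ → ρ ≤ R → 0 < a → 0 < θ → 0 < N →
        PA G t₀ x₀ u ρ a → HE G t₀ x₀ u p κ μ σ θ ρ N →
          PA G t₀ x₀ u (σ * ρ) (C₀ * Real.exp ((1 + κ) * Real.log (3 * σ ^ 2) / 2) / σ * a
            + C₁ * θ * N) := by
  obtain ⟨C₀, hC₀, hmaj⟩ := Pool.Agent.N982.EM.DD_pt hκ hκ1 hμ
  refine ⟨Real.exp 3 * C₀, by positivity, ?_⟩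
  intro σ hσ0 hσ1 hσw
  have hσ : σ ^ 2 ≤ 1 / 32 := by nlinarith
  have hσc : σ ^ 2 ≤ μ / 64 := by nlinarith
  obtain ⟨C₁, hC1d⟩ : ∃ C₁ : ℝ, C₁ = 1 := ⟨_, rfl⟩
  have hC₁ : 0 < C₁ := by rw [hC1d]; norm_num
  have hmaj := hmaj σ hσ0 hσ
  obtain ⟨e1, he1⟩ : ∃ e1, e1 = Real.exp ((1 + κ) * Real.log (3 * σ ^ 2) / 2) := ⟨_, rfl⟩
  have he10 : 0 < e1 := by rw [he1]; exact Real.exp_pos _
  rw [← he1]
  refine ⟨Real.exp 3 * e1 / σ * C₁, by positivity, ?_⟩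
  intro G t₀ x₀ R u p hLS ρ a θ N hρ hρR ha hθ hN hPA hHF
  obtain ⟨ψ, hF, hfθ⟩ := hHF
  have hJ4 := hmaj G t₀ x₀ R u p hLS ρ a σ hρ hρR ha hσc hPA ψ hF
  obtain ⟨J, hJd⟩ : ∃ J : ℝ → ℝ, J = fun t => C₀ / ρ ^ 2 * (ρ * a)
    + PF (1 + κ) (μ / 64) σ ρ t₀ ψ u p t := ⟨_, rfl⟩
  obtain ⟨s, hsG, hs1, hs2⟩ := ex_early hLS hρ hρR
  obtain ⟨Φ, hΦ⟩ : ∃ Φ, Φ = Ph (1 + κ) (μ / 64) σ ρ t₀ ψ := ⟨_, rfl⟩
  rw [← hΦ] at hJ4
  obtain ⟨c₀, hc₀⟩ : ∃ c₀, c₀ = Real.exp (-3)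
    * Real.exp (-((1 + κ) * Real.log (3 * σ ^ 2)) / 2) := ⟨_, rfl⟩
  have hc₀0 : 0 < c₀ := by rw [hc₀]; positivity
  have hc₀i : c₀⁻¹ = Real.exp 3 * e1 := by
    rw [hc₀, he1, mul_inv, ← Real.exp_neg, ← Real.exp_neg, neg_neg, neg_div, neg_neg]
  obtain ⟨Z, hZ⟩ : ∃ Z, Z = ρ * (C₀ * a + C₁ * θ * N) := ⟨_, rfl⟩
  have hZ0 : 0 < Z := by rw [hZ]; positivity
  have hρ2 : 0 < ρ ^ 2 := by positivity
  have hσρ : 0 < σ * ρ := by positivity
  have hσρ2 : σ ^ 2 * ρ ^ 2 ≤ ρ ^ 2 / 32 := by nlinarith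
  have hWs : Wn G t₀ (σ * ρ) ⊆ Wn G t₀ ρ := Wn_mono hσρ.le (by nlinarith)
  have hΦn : ∀ t x, 0 ≤ Φ t x := fun t x => by rw [hΦ]; exact Ph_nn t x
  have hΦlow : ∀ t ∈ Wn G t₀ (σ * ρ), ∀ x ∈ ball x₀ (σ * ρ), c₀ ≤ Φ t x := by
    intro t ht x hx
    rw [hc₀, hΦ]
    have h1 := ht.2.1
    have h2 := ht.2.2
    refine Pool.Agent.N982.EM.Ph_low hF hκ hμ hρ hσ0 hσ hσw le_rfl ?_ h2 hx
    nlinarith
  have hΦout : ∀ t ∈ Ioo (t₀ - ρ ^ 2) t₀, ∀ x ∉ ball x₀ ρ, Φ t x = 0 := fun t ht x hx => by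
    rw [hΦ]
    exact Pool.Agent.N982.EM.Ph_out hF hμ hρ hσc ht (fun h => hx (ball_subset_ball (by linarith) h))
  have hsm := Ph_smooth (α := 1 + κ) (w := μ / 64) (σ := σ) (t₀ := t₀) hF.smooth hρ
  rw [← hΦ] at hsm
  have hβ : t₀ < t₀ + 2 * σ ^ 2 * ρ ^ 2 := by
    have : 0 < σ ^ 2 * ρ ^ 2 := by positivity
    linarith
  have key : ∀ t ∈ Wn G t₀ (σ * ρ), c₀ * A2 x₀ (σ * ρ) (u t) ≤ Z ∧
      ∫ τ in Wn G t₀ (σ * ρ) ∩ Iio t, c₀ * B2 x₀ (σ * ρ) (u τ) ≤ Z := by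
    intro t ht
    have htG : t ∈ G := ht.1
    have ht1 : t₀ - σ ^ 2 * ρ ^ 2 < t := by have := ht.2.1; nlinarith
    have ht2 : t < t₀ := ht.2.2
    have hst : s < t := by linarith
    obtain ⟨hDi, hDe⟩ := hLS.en (t₀ - ρ ^ 2) t₀ Φ
      (hsm.mono (prod_mono (fun _ h => h.2.trans hβ) subset_rfl))
      (fun τ hτ z hz => hΦout τ hτ z fun h => hz (ball_subset_ball hρR h))
      s hsG t htG hs1 hst.le (by linarith) (fun τ _ z => hΦn τ z)
    have hs0 : ∫ z, nsq (u s) z * Φ s z = 0 := by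
      have : ∀ z, nsq (u s) z * Φ s z = 0 := fun z => by
        rw [hΦ, Ph_early (by positivity) hρ hs2.le, mul_zero]
      simp_rw [this]
      simp
    rw [hs0, sub_zero] at hDe
    have hseg : Ioo s t ≤ᵐ[volume] Wn G t₀ ρ := seg_ae hLS hsG htG hs1.le (by linarith)
    have hPi : IntegrableOn (PF (1 + κ) (μ / 64) σ ρ t₀ ψ u p) (Ioo s t) :=
      PF_int hμ hσ0 hLS hρ hρR hσc hPA hF hsG htG hs1 hst.le ht2
    have hci : IntegrableOn (fun _ : ℝ => C₀ / ρ ^ 2 * (ρ * a)) (Ioo s t) :=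
      integrableOn_const (by rw [Real.volume_Ioo]; exact ENNReal.ofReal_ne_top)
    have hJi : IntegrableOn J (Ioo s t) := by
      rw [hJd]
      exact hci.add hPi
    have hPe : ∫ τ in Ioo s t, PF (1 + κ) (μ / 64) σ ρ t₀ ψ u p τ
        = ∫ τ in Wn G t₀ ρ ∩ Iio t, PF (1 + κ) (μ / 64) σ ρ t₀ ψ u p τ := by
      have h1 : ∫ τ in Wn G t₀ ρ ∩ Iio t, PF (1 + κ) (μ / 64) σ ρ t₀ ψ u p τ
          = ∫ τ in Wn G t₀ ρ ∩ Ioo s t, PF (1 + κ) (μ / 64) σ ρ t₀ ψ u p τ := by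
        refine setIntegral_eq_of_subset_of_forall_diff_eq_zero
          (((Wn_open hLS.openG ρ).inter isOpen_Iio).measurableSet)
          (inter_subset_inter_right _ fun _ h => h.2) ?_
        rintro τ ⟨⟨h1, h2⟩, h3⟩
        refine PF_early hρ ?_
        by_contra hcon
        rw [not_le] at hcon
        exact h3 ⟨h1, by linarith, h2⟩
      rw [h1]
      refine setIntegral_congr_set ?_
      have h2 : (Ioo s t : Set ℝ) =ᵐ[volume] (Ioo s t ∩ Wn G t₀ ρ : Set ℝ) := by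
        filter_upwards [hseg] with τ hτ
        apply propext
        exact ⟨fun h => ⟨h, hτ h⟩, fun h => h.1⟩
      rw [inter_comm]
      exact h2
    have hJle : ∫ τ in Ioo s t, J τ ≤ Z := by
      rw [hJd]
      show ∫ τ in Ioo s t, (C₀ / ρ ^ 2 * (ρ * a) + PF (1 + κ) (μ / 64) σ ρ t₀ ψ u p τ) ≤ Z
      rw [integral_add hci hPi, hPe, setIntegral_const, smul_eq_mul, Real.volume_real_Ioo_of_le
        hst.le]
      have h1 := hfθ t ht
      have h2 : (t - s) * (C₀ / ρ ^ 2 * (ρ * a)) ≤ ρ ^ 2 * (C₀ / ρ ^ 2 * (ρ * a)) :=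
        mul_le_mul_of_nonneg_right (by linarith) (by positivity)
      have h3 : ρ ^ 2 * (C₀ / ρ ^ 2 * (ρ * a)) = ρ * (C₀ * a) := by field_simp
      rw [h3] at h2
      rw [hZ, hC1d]
      linarith
    have haeG : ∀ᵐ τ ∂(volume.restrict (Ioo s t)), τ ∈ Wn G t₀ ρ ∧ τ < t := by
      rw [ae_restrict_iff' measurableSet_Ioo]
      filter_upwards [hseg] with τ h1 h2
      exact ⟨h1 h2, h2.2⟩
    have hBn : ∀ τ, 0 ≤ ∫ x, gsq (u τ) x * Φ τ x := fun τ =>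
      integral_nonneg fun x => mul_nonneg (gsq_nn _ _) (hΦn τ x)
    have hae : ∀ᵐ τ ∂(volume.restrict (Ioo s t)),
        DD 1 u p Φ τ + 2 * (∫ x, gsq (u τ) x * Φ τ x) ≤ J τ := by
      filter_upwards [haeG] with τ hτ
      rw [hJd]
      exact hJ4 τ hτ.1
    have hae2 : ∀ᵐ τ ∂(volume.restrict (Ioo s t)), DD 1 u p Φ τ ≤ J τ := by
      filter_upwards [hae] with τ hτ
      linarith [hBn τ]
    have hus := sl_sm hLS.smooth_u htG
    have hΦc : Continuous (Φ t) := (sl_sm hsm (show t ∈ Iio _ by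
      rw [mem_Iio]; linarith)).continuous
    have hEZ : ∫ z, nsq (u t) z * Φ t z ≤ Z :=
      hDe.trans ((setIntegral_mono_ae_restrict hDi hJi hae2).trans hJle)
    have hEn : 0 ≤ ∫ z, nsq (u t) z * Φ t z :=
      integral_nonneg fun x => mul_nonneg (nsq_nn _ _) (hΦn t x)
    constructor
    · refine le_trans ?_ hEZ
      have hnc := (nsq_sm hus).continuous
      have htw : t ∈ Ioo (t₀ - ρ ^ 2) t₀ := (hWs ht).2
      rw [← ball_int_eq (a := x₀) (R := ρ) fun x hx => by rw [hΦout t htw x hx, mul_zero]]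
      have h1 : ∫ x in ball x₀ (σ * ρ), nsq (u t) x * Φ t x
          ≤ ∫ x in ball x₀ ρ, nsq (u t) x * Φ t x :=
        setIntegral_mono_set (ballint (hnc.mul hΦc) _ _)
          (ae_of_all _ fun x => mul_nonneg (nsq_nn _ _) (hΦn t x))
          (ball_subset_ball (by nlinarith)).eventuallyLE
      refine le_trans ?_ h1
      unfold A2
      rw [← integral_const_mul]
      refine setIntegral_mono_on (ballint (continuous_const.mul hnc) _ _)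
        (ballint (hnc.mul hΦc) _ _) measurableSet_ball fun x hx => ?_
      rw [mul_comm c₀]
      exact mul_le_mul_of_nonneg_left (hΦlow t ht x hx) (nsq_nn _ _)
    · have hsub : Wn G t₀ (σ * ρ) ∩ Iio t ⊆ Ioo s t := by
        rintro τ ⟨⟨-, h2, -⟩, h4⟩
        have h4' : τ < t := h4
        exact ⟨by nlinarith, h4'⟩
      have hdi : IntegrableOn (fun τ => J τ - DD 1 u p Φ τ) (Ioo s t) := hJi.sub hDi
      have h1 : ∫ τ in Wn G t₀ (σ * ρ) ∩ Iio t, c₀ * B2 x₀ (σ * ρ) (u τ)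
          ≤ ∫ τ in Wn G t₀ (σ * ρ) ∩ Iio t, (J τ - DD 1 u p Φ τ) := by
        refine integral_mono_of_nonneg (ae_of_all _ fun τ => mul_nonneg hc₀0.le (B2_nn _ _ _))
          (hdi.mono_set hsub) ?_
        have hms : MeasurableSet (Wn G t₀ (σ * ρ) ∩ Iio t) :=
          ((Wn_open hLS.openG _).inter isOpen_Iio).measurableSet
        filter_upwards [ae_restrict_of_ae_restrict_of_subset hsub hae,
          ae_restrict_mem hms] with τ h1 h2
        have hτG : τ ∈ G := h2.1.1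
        have hτt : τ < t := h2.2
        have hus' := sl_sm hLS.smooth_u hτG
        have hΦc' : Continuous (Φ τ) := (sl_sm hsm (show τ ∈ Iio _ by
          rw [mem_Iio]; linarith)).continuous
        have hgc := (gsq_sm hus').continuous
        have h3 : c₀ * B2 x₀ (σ * ρ) (u τ) ≤ ∫ x, gsq (u τ) x * Φ τ x := by
          have hτw : τ ∈ Ioo (t₀ - ρ ^ 2) t₀ := (hWs h2.1).2
          rw [← ball_int_eq (a := x₀) (R := ρ) fun x hx => by rw [hΦout τ hτw x hx, mul_zero]]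
          have h4 : ∫ x in ball x₀ (σ * ρ), gsq (u τ) x * Φ τ x
              ≤ ∫ x in ball x₀ ρ, gsq (u τ) x * Φ τ x :=
            setIntegral_mono_set (ballint (hgc.mul hΦc') _ _)
              (ae_of_all _ fun x => mul_nonneg (gsq_nn _ _) (hΦn τ x))
              (ball_subset_ball (by nlinarith)).eventuallyLE
          refine le_trans ?_ h4
          unfold B2
          rw [← integral_const_mul]
          refine setIntegral_mono_on (ballint (continuous_const.mul hgc) _ _)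
            (ballint (hgc.mul hΦc') _ _) measurableSet_ball fun x hx => ?_
          rw [mul_comm c₀]
          exact mul_le_mul_of_nonneg_left (hΦlow τ h2.1 x hx) (gsq_nn _ _)
        show c₀ * B2 x₀ (σ * ρ) (u τ) ≤ J τ - DD 1 u p Φ τ
        linarith [hBn τ]
      have h2 : ∫ τ in Wn G t₀ (σ * ρ) ∩ Iio t, (J τ - DD 1 u p Φ τ)
          ≤ ∫ τ in Ioo s t, (J τ - DD 1 u p Φ τ) := by
        refine setIntegral_mono_set hdi ?_ hsub.eventuallyLE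
        filter_upwards [hae2] with τ h1
        show 0 ≤ J τ - DD 1 u p Φ τ
        linarith
      have h3 : ∫ τ in Ioo s t, (J τ - DD 1 u p Φ τ)
          = (∫ τ in Ioo s t, J τ) - ∫ τ in Ioo s t, DD 1 u p Φ τ := integral_sub hJi hDi
      rw [h3] at h2
      linarith
  have hB2i : IntegrableOn (fun t => B2 x₀ (σ * ρ) (u t)) (Wn G t₀ (σ * ρ)) := by
    refine Integrable.mono' (hPA.2.1.mono_set hWs) ?_ ?_
    · have h1 : ContinuousOn (fun t => B2 x₀ (σ * ρ) (u t)) G :=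
        pint_cont hLS.openG (gsq_joint hLS.openG hLS.smooth_u).continuousOn x₀ (σ * ρ)
      exact (h1.mono inter_subset_left).aestronglyMeasurable
        (Wn_open hLS.openG _).measurableSet
    · rw [ae_restrict_iff' (Wn_open hLS.openG _).measurableSet]
      refine ae_of_all _ fun t ht => ?_
      rw [Real.norm_eq_abs, abs_of_nonneg (B2_nn _ _ _)]
      exact B2_mn (sl_sm hLS.smooth_u ht.1) (ball_subset_ball (by nlinarith))
  have hfin : c₀⁻¹ * Z = σ * ρ * (Real.exp 3 * C₀ * e1 / σ * a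
      + Real.exp 3 * e1 / σ * C₁ * θ * N) := by
    rw [hc₀i, hZ]
    field_simp
  have hmul : ∀ y : ℝ, c₀ * y ≤ Z → y ≤ σ * ρ * (Real.exp 3 * C₀ * e1 / σ * a
      + Real.exp 3 * e1 / σ * C₁ * θ * N) := by
    intro y hy
    rw [← hfin]
    calc y = c₀⁻¹ * (c₀ * y) := by field_simp
      _ ≤ c₀⁻¹ * Z := mul_le_mul_of_nonneg_left hy (by positivity)
  refine ⟨fun t ht => hmul _ (key t ht).1, hB2i, hmul _ ?_⟩
  rw [← integral_const_mul]
  exact lim_seg (Wn_open hLS.openG _) hZ0.le (hB2i.const_mul c₀)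
    (fun t _ => mul_nonneg hc₀0.le (B2_nn _ _ _)) (fun t ht => (key t ht).2)

end Pool.Agent.N982.EM
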